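import Mathlib

/-! # A generic combination takes the poles of algebraically dependent elements

`M` is a field over `E` over the algebraically closed field `K`, `v` a valuation of `M` which is
trivial on `E`, `z_1, .., z_r` elements of `M` any two of which are algebraically dependent over
`K`, and `m_1, .., m_r` elements of `E` which are linearly independent over `K`. Then
`v (z_i) ≤ max 1 (v (∑ m_j z_j))`.
-/

namespace Pool.Agent.QGen

open MvPolynomial

variable {K M Γ : Type} [Field K] [Field M] [LinearOrderedCommGroupWithZero Γ]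

/-- a nonzero polynomial over `K` which is small at `u` has a root close to `u` -/
theorem exists_root_close [IsAlgClosed K] (φ : K →+* M) (v : Valuation M Γ)
    (hv : ∀ c : K, c ≠ 0 → v (φ c) = 1) (u : M) (ρ : Polynomial K) (hρ : ρ ≠ 0)
    (h : v (ρ.eval₂ φ u) < 1) : ∃ c : K, v (u - φ c) < 1 := by
  by_contra hcon
  push Not at hcon
  have h1 := (IsAlgClosed.splits ρ).eq_prod_roots
  have h2 : ρ.eval₂ φ u = φ ρ.leadingCoeff * (ρ.roots.map fun c => u - φ c).prod := by
    conv_lhs => rw [h1]
    rw [Polynomial.eval₂_mul, Polynomial.eval₂_C, Polynomial.eval₂_multiset_prod,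
      Multiset.map_map]
    congr 2
    refine Multiset.map_congr rfl fun c _ => ?_
    simp
  rw [h2, map_mul, hv _ (Polynomial.leadingCoeff_ne_zero.2 hρ), one_mul, map_multiset_prod,
    Multiset.map_map] at h
  refine absurd h (not_lt.2 ?_)
  refine Multiset.one_le_prod_of_one_le fun x hx => ?_
  obtain ⟨c, -, rfl⟩ := Multiset.mem_map.1 hx
  exact hcon c

/-- the quotient of two algebraically dependent elements, at a pole of the first -/
theorem exists_residue [IsAlgClosed K] (φ : K →+* M) (v : Valuation M Γ)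
    (hv : ∀ c : K, c ≠ 0 → v (φ c) = 1) (a b : M) (R : MvPolynomial (Fin 2) K) (hR : R ≠ 0)
    (hab : eval₂ φ ![a, b] R = 0) (ha : 1 < v a) (hb : v b ≤ v a) :
    ∃ c : K, v (b / a - φ c) < 1 := by
  classical
  have ha0 : a ≠ 0 := by
    rintro rfl
    rw [map_zero] at ha
    exact not_lt.2 zero_le ha
  have hva : v a ≠ 0 := (v.ne_zero_iff).2 ha0
  set D := R.totalDegree with hD
  set u := b / a with hu
  set s := a⁻¹ with hs
  have hvs : v s < 1 := by
    rw [hs, map_inv₀]
    exact inv_lt_one_of_one_lt₀ ha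
  have hvu : v u ≤ 1 := by
    rw [hu, map_div₀]
    exact div_le_one_of_le₀ hb zero_le
  -- the top form
  let ρ : Polynomial K := ∑ m ∈ R.support.filter (fun m => m 0 + m 1 = D),
    Polynomial.monomial (m 1) (R.coeff m)
  have hsum : ∀ m : Fin 2 →₀ ℕ, (m.sum fun _ e => e) = m 0 + m 1 := fun m => by
    rw [Finsupp.sum_fintype _ _ (fun _ => rfl), Fin.sum_univ_two]
  have hdeg : ∀ m ∈ R.support, m 0 + m 1 ≤ D := fun m hm => by
    rw [← hsum]
    exact le_totalDegree hm
  have hρ : ρ ≠ 0 := by
    obtain ⟨m, hm, hmD⟩ := Finset.exists_mem_eq_sup R.support (support_nonempty.2 hR)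
      (fun m => m.sum fun _ e => e)
    have hmD' : m 0 + m 1 = D := by
      rw [← hsum]
      exact hmD.symm
    intro h
    have h1 : ρ.coeff (m 1) = R.coeff m := by
      simp only [ρ, Polynomial.finset_sum_coeff, Polynomial.coeff_monomial]
      rw [Finset.sum_eq_single m]
      · rw [if_pos rfl]
      · intro m' hm' hne
        rw [if_neg]
        intro h1
        apply hne
        have h2 := (Finset.mem_filter.1 hm').2
        ext i
        fin_cases i
        · change m' 0 = m 0
          omega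
        · exact h1
      · intro h1
        exact absurd (Finset.mem_filter.2 ⟨hm, hmD'⟩) h1
    rw [h, Polynomial.coeff_zero] at h1
    exact (mem_support_iff.1 hm) h1.symm
  refine exists_root_close φ v hv u ρ hρ ?_
  -- the relation divided by `a ^ D`
  have h1 : s ^ D * eval₂ φ ![a, b] R = ρ.eval₂ φ u +
      ∑ m ∈ R.support.filter (fun m => ¬ m 0 + m 1 = D),
        φ (R.coeff m) * (s ^ (D - (m 0 + m 1)) * u ^ m 1) := by
    have h2 : ρ.eval₂ φ u = ∑ m ∈ R.support.filter (fun m => m 0 + m 1 = D),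
        φ (R.coeff m) * (s ^ (D - (m 0 + m 1)) * u ^ m 1) := by
      simp only [ρ, Polynomial.eval₂_finsetSum, Polynomial.eval₂_monomial]
      refine Finset.sum_congr rfl fun m hm => ?_
      rw [(Finset.mem_filter.1 hm).2, Nat.sub_self, pow_zero, one_mul]
    rw [h2, Finset.sum_filter_add_sum_filter_not, eval₂_eq', Finset.mul_sum]
    refine Finset.sum_congr rfl fun m hm => ?_
    rw [Fin.prod_univ_two]
    have h3 : s ^ D = s ^ (D - (m 0 + m 1)) * s ^ m 0 * s ^ m 1 := by
      rw [← pow_add, ← pow_add]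
      congr 1
      have := hdeg m hm
      omega
    have h4 : s ^ m 0 * a ^ m 0 = 1 := by
      rw [← mul_pow, hs, inv_mul_cancel₀ ha0, one_pow]
    have h5 : s ^ m 1 * b ^ m 1 = u ^ m 1 := by
      rw [← mul_pow, hs, hu, div_eq_inv_mul]
    change s ^ D * (φ (R.coeff m) * (a ^ m 0 * b ^ m 1)) = _
    rw [h3, ← h5]
    calc s ^ (D - (m 0 + m 1)) * s ^ m 0 * s ^ m 1 * (φ (R.coeff m) * (a ^ m 0 * b ^ m 1))
        = (s ^ m 0 * a ^ m 0) * (φ (R.coeff m) * (s ^ (D - (m 0 + m 1)) * (s ^ m 1 * b ^ m 1))) := by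
          ring
      _ = _ := by rw [h4, one_mul]
  rw [hab, mul_zero] at h1
  have h2 : ρ.eval₂ φ u = - ∑ m ∈ R.support.filter (fun m => ¬ m 0 + m 1 = D),
        φ (R.coeff m) * (s ^ (D - (m 0 + m 1)) * u ^ m 1) := by
    rw [eq_neg_iff_add_eq_zero]
    exact h1.symm
  rw [h2, Valuation.map_neg]
  refine v.map_sum_lt one_ne_zero fun m hm => ?_
  obtain ⟨hm1, hm2⟩ := Finset.mem_filter.1 hm
  have hle := hdeg m hm1
  rw [map_mul, hv _ (mem_support_iff.1 hm1), one_mul, map_mul, map_pow, map_pow]
  have h3 : v s ^ (D - (m 0 + m 1)) < 1 := pow_lt_one₀ zero_le hvs (by omega)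
  have h4 : v u ^ m 1 ≤ 1 := pow_le_one₀ zero_le hvu
  exact mul_lt_one_of_nonneg_of_lt_one_left zero_le h3 h4

/-- a generic combination takes all the poles -/
theorem res {E : Type} [Field E] [Algebra K E] [IsAlgClosed K] (ψ : E →+* M) (v : Valuation M Γ)
    (hv : ∀ c : E, c ≠ 0 → v (ψ c) = 1) {r : ℕ} (m : Fin r → E) (hm : LinearIndependent K m)
    (z : Fin r → M)
    (hz : ∀ i j, ∃ R : MvPolynomial (Fin 2) K, R ≠ 0 ∧
      eval₂ (ψ.comp (algebraMap K E)) ![z i, z j] R = 0) (i : Fin r) :
    v (z i) ≤ max 1 (v (∑ j, ψ (m j) * z j)) := by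
  classical
  have hvK : ∀ c : K, c ≠ 0 → v ((ψ.comp (algebraMap K E)) c) = 1 := fun c hc =>
    hv _ ((map_ne_zero _).2 hc)
  obtain ⟨a, -, ha⟩ := Finset.exists_max_image Finset.univ (fun j => v (z j)) ⟨i, Finset.mem_univ i⟩
  rcases le_or_gt (v (z a)) 1 with h1 | h1
  · exact le_max_of_le_left ((ha i (Finset.mem_univ i)).trans h1)
  refine le_max_of_le_right ((ha i (Finset.mem_univ i)).trans (le_of_eq ?_))
  have hza : z a ≠ 0 := by
    intro h
    rw [h, map_zero] at h1
    exact not_lt.2 zero_le h1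
  have hc : ∀ j, ∃ c : K, v (z j / z a - ψ (algebraMap K E c)) < 1 := fun j => by
    obtain ⟨R, hR, hR0⟩ := hz a j
    exact exists_residue (ψ.comp (algebraMap K E)) v hvK (z a) (z j) R hR hR0 h1
      (ha j (Finset.mem_univ j))
  choose c hc using hc
  have hca : c a = 1 := by
    by_contra hne
    have h2 : (1 : M) - ψ (algebraMap K E (c a)) = ψ (algebraMap K E (1 - c a)) := by
      rw [map_sub, map_one, map_sub, map_one]
    have h3 := hc a
    rw [div_self hza, h2, hv _ ((map_ne_zero _).2 (sub_ne_zero.2 (Ne.symm hne)))] at h3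
    exact lt_irrefl _ h3
  set e : E := ∑ j, c j • m j with he
  have he0 : e ≠ 0 := by
    intro h
    have := Fintype.linearIndependent_iff.1 hm c h a
    rw [hca] at this
    exact one_ne_zero this
  have hsplit : (∑ j, ψ (m j) * z j) / z a = ψ e +
      ∑ j, ψ (m j) * (z j / z a - ψ (algebraMap K E (c j))) := by
    rw [he, map_sum, ← Finset.sum_add_distrib, Finset.sum_div]
    refine Finset.sum_congr rfl fun j _ => ?_
    rw [Algebra.smul_def, map_mul]
    ring
  have hsmall : v (∑ j, ψ (m j) * (z j / z a - ψ (algebraMap K E (c j)))) < 1 := by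
    refine v.map_sum_lt one_ne_zero fun j _ => ?_
    rw [map_mul]
    rcases eq_or_ne (m j) 0 with h2 | h2
    · rw [h2, map_zero, map_zero, zero_mul]
      exact zero_lt_one
    · rw [hv _ h2, one_mul]
      exact hc j
  have h4 : v ((∑ j, ψ (m j) * z j) / z a) = 1 := by
    rw [hsplit, Valuation.map_add_eq_of_lt_left, hv e he0]
    rw [hv e he0]
    exact hsmall
  rw [map_div₀, div_eq_one_iff_eq ((v.ne_zero_iff).2 hza)] at h4
  exact h4.symm

end Pool.Agent.QGen
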