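import Pool.Agent.QT.Fiber

/-! # Theorem G, step (6): the points

`dim_le`: if `1, τ_1, .., τ_r` are linearly independent over `E` and every linear combination of
the `τ_j` satisfies a relation of degree at most `d` with a fixed nonzero one, then `r ≤ d`. -/

namespace Pool.Agent.QGen

open MvPolynomial Pool.Agent.QT

/-- A nonzero combination of the `τ_j` satisfies no nonzero relation over `E`. -/
theorem good_one {E G : Type} [Field E] [IsAlgClosed E] [Field G] [Algebra E G] {r : ℕ} (d : ℕ)
    (τ : Fin r → G)
    (hτ : ∀ (c0 : E) (c : Fin r → E),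
      algebraMap E G c0 + ∑ j, algebraMap E G (c j) * τ j = 0 → c0 = 0 ∧ ∀ j, c j = 0)
    (m : Fin r → E) (hm : m ≠ 0) :
    Good E d (fun _ : Fin 1 => ∑ j, algebraMap E G (m j) * τ j) := by
  intro P _ hP
  set x : G := ∑ j, algebraMap E G (m j) * τ j with hx
  have htr : Transcendental E x := by
    intro halg
    obtain ⟨e, he⟩ : ∃ e : E, algebraMap E G e = x :=
      minpoly.mem_range_of_degree_eq_one E x
        (IsAlgClosed.degree_eq_one_of_irreducible E (minpoly.irreducible halg.isIntegral))
    obtain ⟨_, h2⟩ := hτ (-e) m (by rw [map_neg, he, ← hx]; ring)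
    exact hm (funext h2)
  have hind : AlgebraicIndependent E (fun _ : Fin 1 => x) :=
    (algebraicIndependent_unique_type_iff (x := fun _ : Fin 1 => x)).2 htr
  exact hind.eq_zero_of_aeval_eq_zero P hP

theorem dim_le {E G : Type} [Field E] [IsAlgClosed E] [Field G] [Algebra E G] {r d : ℕ}
    (τ : Fin r → G)
    (hτ : ∀ (c0 : E) (c : Fin r → E),
      algebraMap E G c0 + ∑ j, algebraMap E G (c j) * τ j = 0 → c0 = 0 ∧ ∀ j, c j = 0)
    (m : Fin r → E) (hm : m ≠ 0)
    (hall : ∀ c : Fin r → E,
      ¬ Good E d ![∑ j, algebraMap E G (c j) * τ j, ∑ j, algebraMap E G (m j) * τ j]) :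
    r ≤ d := by
  classical
  by_contra hlt
  push Not at hlt
  -- the form `x`
  let Y : Fin 1 → MvPolynomial (Fin r) E := fun _ => ∑ j, C (m j) * X j
  have haev : ∀ c : Fin r → E, aeval τ (∑ j, C (c j) * X j : MvPolynomial (Fin r) E) =
      ∑ j, algebraMap E G (c j) * τ j := by
    intro c
    rw [map_sum]
    refine Finset.sum_congr rfl fun j _ => ?_
    rw [map_mul, aeval_C, aeval_X]
  have heval : ∀ (c : Fin r → E) (p : Fin r → E),
      eval p (∑ j, C (c j) * X j : MvPolynomial (Fin r) E) = ∑ j, c j * p j := by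
    intro c p
    rw [map_sum]
    refine Finset.sum_congr rfl fun j _ => ?_
    rw [map_mul, eval_C, eval_X]
  have hY : Good E d (fun l => aeval τ (Y l)) := by
    have h1 : (fun l => aeval τ (Y l)) = fun _ : Fin 1 => ∑ j, algebraMap E G (m j) * τ j := by
      funext l
      exact haev m
    rw [h1]
    exact good_one d τ hτ m hm
  obtain ⟨q, hq, hdet⟩ := exists_detY τ Y hY
  -- the linear map
  let Λ : ((Fin r → E) × (E × E)) →ₗ[E] (Mon 1 d → E) :=
    { toFun := fun v i => (∑ j, v.1 j * q i j) - (v.2.1 + v.2.2 * ∑ j, m j * q i j)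
      map_add' := by
        intro x y
        funext i
        simp only [Prod.fst_add, Prod.snd_add, Pi.add_apply, add_mul, Finset.sum_add_distrib]
        ring
      map_smul' := by
        intro c x
        funext i
        simp only [Prod.smul_fst, Prod.smul_snd, Pi.smul_apply, smul_eq_mul, RingHom.id_apply,
          mul_assoc, ← Finset.mul_sum]
        ring }
  have hker : ∀ v ∈ LinearMap.ker Λ, v.2.1 = 0 ∧ ∀ j, v.1 j = v.2.2 * m j := by
    rintro ⟨c, b0, b⟩ hv
    have h1 : ∀ i, ∑ j, c j * q i j = b0 + b * ∑ j, m j * q i j := by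
      intro i
      have := congrFun (LinearMap.mem_ker.1 hv) i
      simp only [Λ, LinearMap.coe_mk, AddHom.coe_mk, Pi.zero_apply] at this
      exact sub_eq_zero.1 this
    have h2 : (∑ j, algebraMap E G (c j) * τ j) -
        (algebraMap E G b0 + algebraMap E G b * ∑ j, algebraMap E G (m j) * τ j) = 0 := by
      by_contra hne
      refine hall c ?_
      have h3 := core τ Y q hq hdet (∑ j, C (c j) * X j) b0 (fun _ => b) (fun i => by
        rw [heval, h1 i, Fin.sum_univ_one]
        change _ = b0 + b * eval (q i) (∑ j, C (m j) * X j)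
        rw [heval]) (by
        rw [haev, Fin.sum_univ_one]
        change _ - (_ + algebraMap E G b * aeval τ (∑ j, C (m j) * X j)) ≠ 0
        rw [haev]
        exact hne)
      have h4 : (fun l => aeval τ ((Fin.cons (∑ j, C (c j) * X j) Y :
          Fin (1 + 1) → MvPolynomial (Fin r) E) l)) =
          ![∑ j, algebraMap E G (c j) * τ j, ∑ j, algebraMap E G (m j) * τ j] := by
        funext l
        refine Fin.cases ?_ (fun l => ?_) l
        · rw [Fin.cons_zero, haev]
          rfl
        · rw [Fin.cons_succ]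
          refine (haev m).trans ?_
          have : l = 0 := Subsingleton.elim _ _
          subst this
          rfl
      rw [h4] at h3
      exact h3
    obtain ⟨h5, h6⟩ := hτ (-b0) (fun j => c j - b * m j) (by
      rw [← h2, map_neg, Finset.mul_sum]
      simp only [map_sub, map_mul, sub_mul, Finset.sum_sub_distrib, mul_assoc]
      ring)
    exact ⟨neg_eq_zero.1 h5, fun j => sub_eq_zero.1 (h6 j)⟩
  let p : LinearMap.ker Λ →ₗ[E] E :=
    (LinearMap.snd E E E) ∘ₗ (LinearMap.snd E (Fin r → E) (E × E)) ∘ₗ (LinearMap.ker Λ).subtype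
  have hp : Function.Injective p := by
    rw [← LinearMap.ker_eq_bot, LinearMap.ker_eq_bot']
    rintro ⟨⟨c, b0, b⟩, hv⟩ hb
    have hb' : b = 0 := hb
    subst hb'
    obtain ⟨h3, h4⟩ := hker _ hv
    have h5 : c = 0 := funext fun j => (h4 j).trans (zero_mul _)
    have h6 : b0 = 0 := h3
    subst h5 h6
    rfl
  have h1 := LinearMap.finrank_le_finrank_of_injective hp
  have h2 := LinearMap.finrank_range_add_finrank_ker Λ
  have h3 : Module.finrank E (LinearMap.range Λ) ≤ Module.finrank E (Mon 1 d → E) :=
    Submodule.finrank_le _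
  rw [Module.finrank_fintype_fun_eq_card, card_Mon] at h3
  have h4 : (1 + d).choose d = d + 1 := by
    rw [add_comm, Nat.choose_succ_self_right]
  have h5 : Module.finrank E ((Fin r → E) × (E × E)) = r + 2 := by
    simp
  rw [Module.finrank_self] at h1
  omega

end Pool.Agent.QGen
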