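import Pool.Agent.GenTuple.Dim
import Pool.Agent.QT.Pts

/-! # Theorem G, step (2): derivations with respect to the generic coefficients

S/MP_c9768e_G (2). `hn` : `n` is not a multiple of `m`. Take `P ≠ 0` of minimal total degree with
`aeval ![y, x] P = 0` (variable `0` is `Y`, variable `1` is `X`); `exists_der hm` gives
`D_i` with `D_i (m j) = δ_ij`; `diff_rel` gives the relation
`P_X(x,y) t_i + P_Y(x,y) ∑ D_i(n_j) t_j ∈ E(x,y)`.
`P_Y(x,y) ≠ 0`, `θ = -P_X/P_Y ∉ E`, `det (θ - J) ≠ 0`, Cramer. -/

namespace Pool.Agent.QGen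

open MvPolynomial Pool.Agent.GenTuple Pool.Agent.QT

/-- algebraic elements over an algebraically closed field -/
theorem alg_mem_range {E G : Type} [Field E] [IsAlgClosed E] [Field G] [Algebra E G] (a : G)
    (h : IsAlgebraic E a) : ∃ e : E, algebraMap E G e = a := by
  have h1 : (minpoly E a).degree = 1 :=
    IsAlgClosed.degree_eq_one_of_irreducible E (minpoly.irreducible h.isIntegral)
  obtain ⟨e, he⟩ := minpoly.mem_range_of_degree_eq_one E a h1
  exact ⟨e, he⟩

/-- a relation that does not contain one of the two variables -/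
theorem mem_of_pderiv {E G : Type} [Field E] [CharZero E] [IsAlgClosed E] [Field G] [Algebra E G]
    (P : MvPolynomial (Fin 2) E) (hP : P ≠ 0) (i k : Fin 2) (hik : k ≠ i) (h : pderiv i P = 0)
    (v : Fin 2 → G) (hv : aeval v P = 0) : ∃ e : E, algebraMap E G e = v k := by
  have hvars : (P.vars : Set (Fin 2)) ⊆ Set.range (fun _ : PUnit.{1} => k) := by
    intro l hl
    have h1 : l ≠ i := by
      rintro rfl
      exact notMem_vars_of_pderiv _ P h hl
    refine ⟨PUnit.unit, ?_⟩
    change k = l
    omega
  obtain ⟨Q, hQ⟩ := exists_rename_eq_of_vars_subset_range P (fun _ : PUnit.{1} => k)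
    (Function.injective_of_subsingleton _) hvars
  have hQ0 : Q ≠ 0 := by
    rintro rfl
    exact hP (by rw [← hQ, map_zero])
  refine alg_mem_range (v k) ⟨pUnitAlgEquiv E Q, ?_, ?_⟩
  · intro h0
    exact hQ0 ((pUnitAlgEquiv E).injective (by rw [h0, map_zero]))
  · rw [← hQ, aeval_rename] at hv
    have h2 : ∀ R : MvPolynomial PUnit.{1} E,
        Polynomial.aeval (v k) (pUnitAlgEquiv E R) = aeval (v ∘ fun _ : PUnit.{1} => k) R := by
      intro R
      have h3 : (Polynomial.aeval (v k)).comp (pUnitAlgEquiv E : _ →ₐ[E] _) =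
          aeval (v ∘ fun _ : PUnit.{1} => k) := by
        apply MvPolynomial.algHom_ext
        intro u
        simp
      exact congrArg (fun f => f R) h3
    rw [h2, hv]

/-- the differentiated relation lies in `E(x, y)` -/
theorem diff_mem {K E F G : Type} [Field K] [Field E] [Field F]
    [Field G] [Algebra K E] [Algebra K F] [Algebra K G] [Algebra E G] [Algebra F G]
    [IsScalarTower K E G] [IsScalarTower K F G] (h : Disj K E F G) {r : ℕ} (t : Fin r → F)
    (m n : Fin r → E) (x y : G)
    (hx : x = ∑ j, algebraMap E G (m j) * algebraMap F G (t j))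
    (hy : y = ∑ j, algebraMap E G (n j) * algebraMap F G (t j))
    (P : MvPolynomial (Fin 2) E) (hP : aeval ![y, x] P = 0) (δ : Derivation K E E) :
    aeval ![y, x] (pderiv 0 P) * (∑ j, algebraMap E G (δ (n j)) * algebraMap F G (t j)) +
      aeval ![y, x] (pderiv 1 P) * (∑ j, algebraMap E G (δ (m j)) * algebraMap F G (t j)) ∈
        IntermediateField.adjoin E {x, y} := by
  classical
  let x' : Fin 0 → F := fun a => a.elim0
  let c : Fin 2 → F := fun _ => 0
  let t' : Fin 2 → Fin r → F := fun _ => t
  let lam : Fin 2 × Fin r → E := fun q => if q.1 = 0 then n q.2 else m q.2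
  have h0 : lam ∘ (fun j => ((0 : Fin 2), j)) = n := rfl
  have hpt : (pt (K := E) (fun a => algebraMap F G (x' a)) (fun i => algebraMap F G (c i))
      (fun i j => algebraMap F G (t' i j)) lam) ∘ (Sum.inr : Fin 2 → Fin 0 ⊕ Fin 2) = ![y, x] := by
    funext i
    fin_cases i
    · simp [pt, c, t', lam, hy]
    · simp [pt, c, t', lam, hx]
  have h1 : ∀ Q : MvPolynomial (Fin 2) E,
      aeval (pt (K := E) (fun a => algebraMap F G (x' a)) (fun i => algebraMap F G (c i))
        (fun i j => algebraMap F G (t' i j)) lam)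
        (rename (Sum.inr : Fin 2 → Fin 0 ⊕ Fin 2) Q) = aeval ![y, x] Q := by
    intro Q
    rw [aeval_rename, hpt]
  have h2 := diff_rel h x' c t' lam δ (rename (Sum.inr : Fin 2 → Fin 0 ⊕ Fin 2) P)
    (by rw [h1]; exact hP)
  rw [Fin.sum_univ_two] at h2
  rw [pderiv_rename Sum.inr_injective, pderiv_rename Sum.inr_injective, h1, h1] at h2
  have h3 : aeval (pt (K := E) (fun a => algebraMap F G (x' a)) (fun i => algebraMap F G (c i))
        (fun i j => algebraMap F G (t' i j)) lam)
        (dcoef δ (rename (Sum.inr : Fin 2 → Fin 0 ⊕ Fin 2) P)) ∈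
        IntermediateField.adjoin E {x, y} := by
    rw [aeval_def, eval₂_eq]
    refine sum_mem fun α _ => mul_mem ((IntermediateField.adjoin E {x, y}).algebraMap_mem _)
      (prod_mem fun l _ => pow_mem ?_ _)
    rcases l with a | i
    · exact a.elim0
    · have h4 := congrFun hpt i
      simp only [Function.comp_apply] at h4
      rw [h4]
      fin_cases i
      · exact IntermediateField.subset_adjoin E _ (by simp)
      · exact IntermediateField.subset_adjoin E _ (by simp)
  have h5 := neg_mem h3
  have h6 : aeval ![y, x] (pderiv 0 P) *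
        (∑ j, algebraMap E G (δ (n j)) * algebraMap F G (t j)) +
      aeval ![y, x] (pderiv 1 P) * (∑ j, algebraMap E G (δ (m j)) * algebraMap F G (t j)) =
      -(aeval (pt (K := E) (fun a => algebraMap F G (x' a)) (fun i => algebraMap F G (c i))
        (fun i j => algebraMap F G (t' i j)) lam)
        (dcoef δ (rename (Sum.inr : Fin 2 → Fin 0 ⊕ Fin 2) P))) := by
    rw [eq_neg_iff_add_eq_zero, add_comm]
    exact h2
  rw [h6]
  exact h5

/-- `1, t_1, …, t_r` are linearly independent over `E` -/
private theorem indepE_aux {K E F G : Type} [Field K] [Field E] [Field F]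
    [Field G] [Algebra K E] [Algebra K F] [Algebra K G] [Algebra E G] [Algebra F G]
    [IsScalarTower K E G] [IsScalarTower K F G] (h : Disj K E F G) {r : ℕ} (t : Fin r → F)
    (ht : ∀ (c0 : K) (c : Fin r → K),
      algebraMap K F c0 + ∑ j, algebraMap K F (c j) * t j = 0 → c0 = 0 ∧ ∀ j, c j = 0)
    (c0 : E) (c : Fin r → E)
    (h0 : algebraMap E G c0 + ∑ j, algebraMap E G (c j) * algebraMap F G (t j) = 0) :
    c0 = 0 ∧ ∀ j, c j = 0 := by
  let f : Option (Fin r) → F := fun o => o.elim 1 t
  have hf : LinearIndependent K f := by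
    rw [Fintype.linearIndependent_iff]
    intro g hg
    rw [Fintype.sum_option] at hg
    have h1 := ht (g none) (fun j => g (some j)) (by
      simpa [f, Algebra.smul_def] using hg)
    intro o
    rcases o with _ | j
    · exact h1.1
    · exact h1.2 j
  have h1 := h (Option (Fin r)) f hf
  rw [Fintype.linearIndependent_iff] at h1
  have h2 := h1 (fun o => o.elim c0 c) (by
    rw [Fintype.sum_option]
    simpa [f, Algebra.smul_def] using h0)
  exact ⟨h2 none, fun j => h2 (some j)⟩

theorem mem_adjoin {K E F G : Type} [Field K] [CharZero K] [Field E] [IsAlgClosed E] [Field F]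
    [Field G] [Algebra K E] [Algebra K F] [Algebra K G] [Algebra E G] [Algebra F G]
    [IsScalarTower K E G] [IsScalarTower K F G] (h : Disj K E F G) {r d : ℕ} (t : Fin r → F)
    (ht : ∀ (c0 : K) (c : Fin r → K),
      algebraMap K F c0 + ∑ j, algebraMap K F (c j) * t j = 0 → c0 = 0 ∧ ∀ j, c j = 0)
    (m n : Fin r → E) (hm : AlgebraicIndependent K m) (hn : ∀ c : E, n ≠ c • m) (x y : G)
    (hx : x = ∑ j, algebraMap E G (m j) * algebraMap F G (t j))
    (hy : y = ∑ j, algebraMap E G (n j) * algebraMap F G (t j))
    (hrel : ¬ Good E d ![y, x]) :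
    ∀ j, algebraMap F G (t j) ∈ IntermediateField.adjoin E {x, y} := by
  intro j0
  classical
  have hcE : CharZero E := charZero_of_injective_algebraMap (algebraMap K E).injective
  have hind := indepE_aux h t ht
  -- a relation of minimal degree
  have hex : ∃ N : ℕ, ∃ P : MvPolynomial (Fin 2) E, P ≠ 0 ∧ P.totalDegree = N ∧
      aeval ![y, x] P = 0 := by
    unfold Good at hrel
    push Not at hrel
    obtain ⟨P, _, h2, h3⟩ := hrel
    exact ⟨_, P, h3, rfl, h2⟩
  obtain ⟨P, hP0, hPn, hP⟩ := Nat.find_spec hex
  have hmin : ∀ Q : MvPolynomial (Fin 2) E, aeval ![y, x] Q = 0 →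
      Q.totalDegree < P.totalDegree → Q = 0 := by
    intro Q hQ hd
    by_contra hne
    exact Nat.find_min hex (hPn ▸ hd) ⟨Q, hne, rfl, hQ⟩
  -- `P_Y(x, y) ≠ 0`
  have hY : aeval ![y, x] (pderiv 0 P) ≠ 0 := by
    intro h1
    have h2 : pderiv 0 P = 0 := by
      by_contra hne
      exact hne (hmin _ h1 (totalDegree_pderiv_lt 0 P hne))
    obtain ⟨e, he⟩ := mem_of_pderiv P hP0 0 1 (by decide) h2 ![y, x] hP
    simp only [Matrix.cons_val_one, Matrix.cons_val_zero] at he
    have h3 := hind (-e) m (by
      rw [map_neg, he, hx]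
      ring)
    exact hm.ne_zero j0 (h3.2 j0)
  have hPdeg : 0 < P.totalDegree := by
    have h1 : pderiv 0 P ≠ 0 := by
      intro h2
      apply hY
      rw [h2, map_zero]
    have := totalDegree_pderiv_lt 0 P h1
    omega
  set θ : G := -(aeval ![y, x] (pderiv 1 P)) / aeval ![y, x] (pderiv 0 P) with hθ
  -- `θ ∉ E`
  have hθE : ∀ e : E, algebraMap E G e ≠ θ := by
    intro e he
    have h1 : aeval ![y, x] (pderiv 1 P + C e * pderiv 0 P) = 0 := by
      rw [map_add, map_mul, algHom_C, he, hθ, neg_div, neg_mul, div_mul_cancel₀ _ hY]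
      ring
    have hlt : ∀ i : Fin 2, (pderiv i P).totalDegree < P.totalDegree := by
      intro i
      by_cases h2 : pderiv i P = 0
      · rw [h2, totalDegree_zero]
        exact hPdeg
      · exact totalDegree_pderiv_lt i P h2
    have h2 : pderiv 1 P + C e * pderiv 0 P = 0 := by
      apply hmin _ h1
      refine (totalDegree_add _ _).trans_lt (max_lt (hlt 1) ?_)
      refine (totalDegree_mul _ _).trans_lt ?_
      rw [totalDegree_C, zero_add]
      exact hlt 0
    let Z : Fin 2 → MvPolynomial (Fin 2) E := ![X 0 + C e * X 1, X 1]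
    let P' : MvPolynomial (Fin 2) E := aeval Z P
    have h3 : pderiv 1 P' = 0 := by
      have h4 := der_aeval (pderiv (R := E) (1 : Fin 2)) Z P
      have h5 : pderiv (1 : Fin 2) (Z 0) = C e := by
        simp [Z, pderiv_X_of_ne, Derivation.leibniz]
      have h6 : pderiv (1 : Fin 2) (Z 1) = 1 := by
        simp [Z]
      rw [Fin.sum_univ_two, h5, h6, mul_one] at h4
      change (pderiv (1 : Fin 2)) (aeval Z P) = 0
      rw [h4]
      have h7 := congrArg (aeval Z) h2
      rw [map_add, map_mul, algHom_C, map_zero] at h7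
      rw [← h7]
      simp only [algebraMap_eq]
      ring
    have h8 : P' ≠ 0 := by
      intro h9
      apply hP0
      have h10 : aeval (![X 0 - C e * X 1, X 1] : Fin 2 → MvPolynomial (Fin 2) E) P' = P := by
        change aeval _ (aeval Z P) = P
        rw [← AlgHom.comp_apply, comp_aeval]
        conv_rhs => rw [← aeval_X_left_apply P]
        congr 2
        funext i
        fin_cases i
        · simp [Z]
        · simp [Z]
      rw [← h10, h9, map_zero]
    have h11 : aeval ![y - algebraMap E G e * x, x] P' = 0 := by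
      change aeval _ (aeval Z P) = 0
      rw [← AlgHom.comp_apply, comp_aeval, ← hP]
      congr 2
      funext i
      fin_cases i
      · simp [Z]
      · simp [Z]
    obtain ⟨e', he'⟩ := mem_of_pderiv P' h8 1 0 (by decide) h3 _ h11
    simp only [Matrix.cons_val_zero] at he'
    have h12 := hind (-e') (fun j => n j - e * m j) (by
      rw [map_neg, he', hx, hy, Finset.mul_sum]
      simp only [map_sub, map_mul, sub_mul, Finset.sum_sub_distrib, mul_assoc]
      ring)
    apply hn e
    funext j
    have := h12.2 j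
    simp only [Pi.smul_apply, smul_eq_mul]
    linear_combination this
  -- the derivations
  have hder : ∀ i : Fin r, ∃ D : Derivation K E E, ∀ j, D (m j) = if j = i then 1 else 0 :=
    fun i => exists_der hm _
  choose D hD using hder
  set S := IntermediateField.adjoin E {x, y} with hS
  have hxS : x ∈ S := IntermediateField.subset_adjoin E _ (by simp)
  have hyS : y ∈ S := IntermediateField.subset_adjoin E _ (by simp)
  have hev : ∀ Q : MvPolynomial (Fin 2) E, aeval ![y, x] Q ∈ S := by
    intro Q
    rw [aeval_def, eval₂_eq]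
    refine sum_mem fun α _ => mul_mem (S.algebraMap_mem _) (prod_mem fun l _ => pow_mem ?_ _)
    fin_cases l
    · exact hyS
    · exact hxS
  have hθS : θ ∈ S := div_mem (neg_mem (hev _)) (hev _)
  let J : Matrix (Fin r) (Fin r) E := Matrix.of fun i j => D i (n j)
  let M : Matrix (Fin r) (Fin r) S := Matrix.scalar (Fin r) (⟨θ, hθS⟩ : S) - J.map (algebraMap E S)
  have hdet : M.det ≠ 0 := by
    intro h0
    have h1 : Polynomial.aeval (⟨θ, hθS⟩ : S) J.charpoly = 0 := by
      rw [Polynomial.aeval_def, ← Polynomial.eval_map, ← Matrix.charpoly_map,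
        Matrix.eval_charpoly]
      exact h0
    have h2 : IsAlgebraic E (⟨θ, hθS⟩ : S) :=
      ⟨J.charpoly, (Matrix.charpoly_monic J).ne_zero, h1⟩
    obtain ⟨e, he⟩ := alg_mem_range _ h2
    apply hθE e
    have h3 := congrArg (algebraMap S G) he
    rw [← IsScalarTower.algebraMap_apply] at h3
    exact h3
  -- the right hand side
  have hb : ∀ i : Fin r, ∃ b : S, (b : G) = θ * algebraMap F G (t i) -
      ∑ j, algebraMap E G (J i j) * algebraMap F G (t j) := by
    intro i
    have h1 := diff_mem h t m n x y hx hy P hP (D i)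
    have h2 : ∑ j, algebraMap E G (D i (m j)) * algebraMap F G (t j) = algebraMap F G (t i) := by
      rw [Finset.sum_eq_single i]
      · rw [hD, if_pos rfl, map_one, one_mul]
      · intro j _ hj
        rw [hD, if_neg hj, map_zero, zero_mul]
      · intro h3
        exact absurd (Finset.mem_univ _) h3
    rw [h2] at h1
    refine ⟨⟨_, div_mem (neg_mem h1) (hev (pderiv 0 P))⟩, ?_⟩
    change -(_ + _) / _ = _
    rw [hθ]
    have h4 : ∑ j, algebraMap E G (J i j) * algebraMap F G (t j) =
        ∑ j, algebraMap E G (D i (n j)) * algebraMap F G (t j) := rfl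
    rw [h4]
    field_simp
    ring
  choose b hb using hb
  let u : Fin r → S := M⁻¹.mulVec b
  have hu : M.mulVec u = b := by
    change M.mulVec (M⁻¹.mulVec b) = b
    rw [Matrix.mulVec_mulVec, Matrix.mul_nonsing_inv _ (isUnit_iff_ne_zero.2 hdet),
      Matrix.one_mulVec]
  -- compare in `G`
  let MG : Matrix (Fin r) (Fin r) G := M.map (algebraMap S G)
  have hdetG : MG.det ≠ 0 := by
    have h1 : MG.det = algebraMap S G M.det := by
      rw [RingHom.map_det]
      rfl
    rw [h1]
    intro h2
    exact hdet ((algebraMap S G).injective (by rw [h2, map_zero]))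
  have h1 : MG.mulVec (fun j => (u j : G)) = MG.mulVec (fun j => algebraMap F G (t j)) := by
    funext i
    have h2 : MG.mulVec (fun j => (u j : G)) i = (b i : G) := by
      have h3 := congrArg (algebraMap S G) (congrFun hu i)
      rw [Matrix.mulVec, dotProduct, map_sum] at h3
      simp only [map_mul] at h3
      exact h3
    rw [h2, hb]
    rw [Matrix.mulVec, dotProduct]
    have h4 : ∀ j, MG i j = (if i = j then θ else 0) - algebraMap E G (J i j) := by
      intro j
      change algebraMap S G (M i j) = _
      have h5 : M i j = (if i = j then (⟨θ, hθS⟩ : S) else 0) - algebraMap E S (J i j) := by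
        simp [M, Matrix.scalar_apply, Matrix.diagonal_apply]
      rw [h5, map_sub, ← IsScalarTower.algebraMap_apply]
      split_ifs
      · rfl
      · rw [map_zero]
    simp only [h4, sub_mul, Finset.sum_sub_distrib, ite_mul, zero_mul,
      Finset.sum_ite_eq, Finset.mem_univ, if_true]
  have h2 : (fun j => (u j : G)) - (fun j => algebraMap F G (t j)) = 0 := by
    apply Matrix.eq_zero_of_mulVec_eq_zero hdetG
    rw [Matrix.mulVec_sub, h1, sub_self]
  have h3 := congrFun h2 j0
  simp only [Pi.sub_apply, Pi.zero_apply] at h3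
  rw [← sub_eq_zero.1 h3]
  exact (u j0).2

end Pool.Agent.QGen
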