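import Pool.Agent.GenTuple.Dim
import Pool.Agent.QT.DimB
import Pool.Agent.QS.Trans

/-! # Theorem G, step (3): any two of the `t_j` are algebraically dependent over `K`

`x` is transcendental over `E` (`Disj`, `ht`: a relation of `x` alone splits, `x ∈ E`), `y` is
algebraic over `E(x)` (`hrel`), so `adjoin E {x, y}` has transcendence degree `1`; two elements of
it are dependent over `E`; the dependence of `t i, t j` descends to `K` by `Disj` (`good_disj`
contrapositive: if `![t i, t j]` is `Good K D` for all `D` it is `Good E D`). -/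

namespace Pool.Agent.QGen

open MvPolynomial Pool.Agent.GenTuple Pool.Agent.QT

/-- `1, t_1, .., t_r` stay linearly independent over `E` -/
theorem indep_E {K E F G : Type} [Field K] [Field E] [Field F] [Field G] [Algebra K E]
    [Algebra K F] [Algebra K G] [Algebra E G] [Algebra F G] [IsScalarTower K E G]
    [IsScalarTower K F G] (h : Disj K E F G) {r : ℕ} (t : Fin r → F)
    (ht : ∀ (c0 : K) (c : Fin r → K),
      algebraMap K F c0 + ∑ j, algebraMap K F (c j) * t j = 0 → c0 = 0 ∧ ∀ j, c j = 0)
    (c0 : E) (c : Fin r → E)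
    (h0 : algebraMap E G c0 + ∑ j, algebraMap E G (c j) * algebraMap F G (t j) = 0) :
    c0 = 0 ∧ ∀ j, c j = 0 := by
  have h1 : LinearIndependent K (Fin.cons 1 t : Fin (r + 1) → F) := by
    rw [Fintype.linearIndependent_iff]
    intro g hg
    rw [Fin.sum_univ_succ] at hg
    simp only [Fin.cons_zero, Fin.cons_succ, Algebra.smul_def, mul_one] at hg
    obtain ⟨h2, h3⟩ := ht (g 0) (fun j => g j.succ) hg
    intro i
    refine Fin.cases h2 h3 i
  have h2 := h _ _ h1
  rw [Fintype.linearIndependent_iff] at h2
  have h3 := h2 (Fin.cons c0 c : Fin (r + 1) → E) (by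
    rw [Fin.sum_univ_succ]
    simp only [Fin.cons_zero, Fin.cons_succ, Algebra.smul_def, map_one, mul_one]
    exact h0)
  exact ⟨h3 0, fun j => h3 j.succ⟩

theorem transc_x {K E F G : Type} [Field K] [CharZero K] [IsAlgClosed K] [Field E] [IsAlgClosed E]
    [Field F] [Field G] [Algebra K E] [Algebra K F] [Algebra K G] [Algebra E G] [Algebra F G]
    [IsScalarTower K E G] [IsScalarTower K F G] (h : Disj K E F G) {r : ℕ} (t : Fin r → F)
    (ht : ∀ (c0 : K) (c : Fin r → K),
      algebraMap K F c0 + ∑ j, algebraMap K F (c j) * t j = 0 → c0 = 0 ∧ ∀ j, c j = 0)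
    (m : Fin r → E) (hm : m ≠ 0) :
    Transcendental E (∑ j, algebraMap E G (m j) * algebraMap F G (t j)) := by
  intro halg
  set x := ∑ j, algebraMap E G (m j) * algebraMap F G (t j) with hx
  have h1 : IsIntegral E x := isAlgebraic_iff_isIntegral.1 halg
  have h2 : Algebra.IsAlgebraic E (IntermediateField.adjoin E {x}) :=
    IntermediateField.isAlgebraic_adjoin_simple h1
  have h3 := IntermediateField.eq_bot_of_isAlgClosed_of_isAlgebraic (IntermediateField.adjoin E {x})
  have h4 : x ∈ IntermediateField.adjoin E {x} := IntermediateField.mem_adjoin_simple_self E x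
  rw [h3, IntermediateField.mem_bot] at h4
  obtain ⟨e, he⟩ := h4
  have h5 := indep_E h t ht (-e) m (by rw [map_neg, he, hx, neg_add_cancel])
  exact hm (funext h5.2)

theorem pair_rel {K E F G : Type} [Field K] [CharZero K] [IsAlgClosed K] [Field E] [IsAlgClosed E]
    [Field F] [Field G] [Algebra K E] [Algebra K F] [Algebra K G] [Algebra E G] [Algebra F G]
    [IsScalarTower K E G] [IsScalarTower K F G] (h : Disj K E F G) {r d : ℕ} (t : Fin r → F)
    (x y : G) (hx : Transcendental E x) (hrel : ¬ Good E d ![y, x])
    (hmem : ∀ j, algebraMap F G (t j) ∈ IntermediateField.adjoin E {x, y}) (i j : Fin r) :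
    ∃ R : MvPolynomial (Fin 2) K, R ≠ 0 ∧ aeval ![t i, t j] R = 0 := by
  classical
  by_contra hcon
  push Not at hcon
  -- `y` is algebraic over `E(x)`
  let w : Fin 1 → G := fun _ => x
  have hw : AlgebraicIndependent E w := by
    rw [algebraicIndependent_unique_type_iff]
    exact hx
  set S := IntermediateField.adjoin E (Set.range w) with hS
  have hxS : x ∈ S := IntermediateField.subset_adjoin E _ ⟨0, rfl⟩
  let φ : MvPolynomial (Fin 1) E →ₐ[E] S := aeval fun _ => ⟨x, hxS⟩
  have hφ : ∀ a, algebraMap S G (φ a) = aeval w a := fun a => by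
    have h1 : (IsScalarTower.toAlgHom E S G).comp φ = aeval w := by
      apply MvPolynomial.algHom_ext
      intro l
      simp [φ, w]
    exact congrArg (fun f : MvPolynomial (Fin 1) E →ₐ[E] G => f a) h1
  have hy : IsAlgebraic S y := by
    unfold Good at hrel
    push Not at hrel
    obtain ⟨P, _, h2, h3⟩ := hrel
    have e1 : (![y, x] : Fin 2 → G) = Fin.cons y w := by
      funext l
      fin_cases l <;> rfl
    rw [e1] at h2
    exact QS.TransAux.isAlgebraic_of_rel (k := 1) w hw φ.toRingHom hφ y P h3 h2
  have hle : IntermediateField.adjoin E {x, y} ≤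
      (algebraicClosure S G).restrictScalars E := by
    rw [IntermediateField.adjoin_le_iff]
    rintro z (rfl | rfl)
    · exact (algebraicClosure S G).algebraMap_mem ⟨z, hxS⟩
    · exact mem_algebraicClosure_iff.2 hy
  have halg : ∀ l, IsAlgebraic S (algebraMap F G (t l)) := fun l =>
    mem_algebraicClosure_iff.1 (hle (hmem l))
  -- two of them are dependent over `E`
  have h1 : ¬ AlgebraicIndependent E (![algebraMap F G (t i), algebraMap F G (t j)] : Fin 2 → G) := by
    intro h2
    have h3 := card_le_of_isAlgebraic _ h2 w fun a => by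
      fin_cases a
      · exact halg i
      · exact halg j
    simp at h3
  apply h1
  rw [algebraicIndependent_iff]
  intro P hP
  have h2 : Good K P.totalDegree (![t i, t j] : Fin 2 → F) := by
    intro R _ hR
    by_contra hR0
    exact hcon R hR0 hR
  have e2 : (fun a : Fin 2 => algebraMap F G ((![t i, t j] : Fin 2 → F) a)) =
      ![algebraMap F G (t i), algebraMap F G (t j)] := by
    funext a
    fin_cases a <;> rfl
  have h3 := good_disj h _ h2
  rw [e2] at h3
  exact h3 P le_rfl hP

end Pool.Agent.QGen
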