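import Pool.Agent.QGen.Alg
import Pool.Agent.QGen.TransA

/-! # Theorem G', steps (2') and (2''): a second space of smaller dimension

S/MP_c9768e_G2. `x = ∑ m_j t_j` with generic `m`, `y = ∑ n_j p_j ≠ 0` with fewer `p` than `t`, and a
relation between `y` and `x`. Then all `t_j` lie in `E(x, y)`. -/

namespace Pool.Agent.QGen

open MvPolynomial Pool.Agent.GenTuple Pool.Agent.QT

/-- an element of `E(x, y)` is dependent on `x` -/
theorem rel_of_mem {E G : Type} [Field E] [IsAlgClosed E] [Field G] [Algebra E G] {d : ℕ}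
    (x y z : G) (hx : Transcendental E x) (hrel : ¬ Good E d ![y, x])
    (hz : z ∈ IntermediateField.adjoin E {x, y}) : ∃ d', ¬ Good E d' ![z, x] := by
  classical
  let w : Fin 1 → G := fun _ => x
  have hw : AlgebraicIndependent E w := by
    rw [algebraicIndependent_unique_type_iff]
    exact hx
  set S := IntermediateField.adjoin E (Set.range w) with hS
  have hxS : x ∈ S := IntermediateField.subset_adjoin E _ ⟨0, rfl⟩
  let φ : MvPolynomial (Fin 1) E →ₐ[E] S := aeval fun _ => ⟨x, hxS⟩
  have hφ : ∀ a, algebraMap S G (φ a) = aeval w a := fun a => by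
    have h1 : (IsScalarTower.toAlgHom E S G).comp φ = aeval w := by
      apply MvPolynomial.algHom_ext
      intro l
      simp [φ, w]
    exact congrArg (fun f : MvPolynomial (Fin 1) E →ₐ[E] G => f a) h1
  have hy : IsAlgebraic S y := by
    unfold Good at hrel
    push Not at hrel
    obtain ⟨P, _, h2, h3⟩ := hrel
    have e1 : (![y, x] : Fin 2 → G) = Fin.cons y w := by
      funext l
      fin_cases l <;> rfl
    rw [e1] at h2
    exact QS.TransAux.isAlgebraic_of_rel (k := 1) w hw φ.toRingHom hφ y P h3 h2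
  have hle : IntermediateField.adjoin E {x, y} ≤
      (algebraicClosure S G).restrictScalars E := by
    rw [IntermediateField.adjoin_le_iff]
    rintro z (rfl | rfl)
    · exact (algebraicClosure S G).algebraMap_mem ⟨z, hxS⟩
    · exact mem_algebraicClosure_iff.2 hy
  have halg : IsAlgebraic S z := mem_algebraicClosure_iff.1 (hle hz)
  have h1 : ¬ AlgebraicIndependent E (![z, x] : Fin 2 → G) := by
    intro h2
    have h3 := card_le_of_isAlgebraic _ h2 w fun a => by
      fin_cases a
      · exact halg
      · exact mem_algebraicClosure_iff.1 ((algebraicClosure S G).algebraMap_mem ⟨x, hxS⟩)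
    simp at h3
  rw [algebraicIndependent_iff] at h1
  push Not at h1
  obtain ⟨P, hP, hP0⟩ := h1
  exact ⟨P.totalDegree, fun hG => hP0 (hG P le_rfl hP)⟩

/-- the differentiated relation lies in `E(x, y)` -/
theorem diff_mem2 {K E F G : Type} [Field K] [Field E] [Field F]
    [Field G] [Algebra K E] [Algebra K F] [Algebra K G] [Algebra E G] [Algebra F G]
    [IsScalarTower K E G] [IsScalarTower K F G] (h : Disj K E F G) {r b : ℕ} (t : Fin r → F)
    (p : Fin b → F) (m : Fin r → E) (n : Fin b → E) (x y : G)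
    (hx : x = ∑ j, algebraMap E G (m j) * algebraMap F G (t j))
    (hy : y = ∑ j, algebraMap E G (n j) * algebraMap F G (p j))
    (P : MvPolynomial (Fin 2) E) (hP : aeval ![y, x] P = 0) (δ : Derivation K E E) :
    aeval ![y, x] (pderiv 0 P) * (∑ j, algebraMap E G (δ (n j)) * algebraMap F G (p j)) +
      aeval ![y, x] (pderiv 1 P) * (∑ j, algebraMap E G (δ (m j)) * algebraMap F G (t j)) ∈
        IntermediateField.adjoin E {x, y} := by
  classical
  let x' : Fin 0 → F := fun a => a.elim0
  let c : Fin 2 → F := fun _ => 0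
  let t' : Fin 2 → Fin r ⊕ Fin b → F := fun i => Sum.elim t p
  let lam : Fin 2 × (Fin r ⊕ Fin b) → E := fun q =>
    if q.1 = 0 then Sum.elim (fun _ => 0) n q.2 else Sum.elim m (fun _ => 0) q.2
  have hpt : (pt (K := E) (fun a => algebraMap F G (x' a)) (fun i => algebraMap F G (c i))
      (fun i j => algebraMap F G (t' i j)) lam) ∘ (Sum.inr : Fin 2 → Fin 0 ⊕ Fin 2) = ![y, x] := by
    funext i
    fin_cases i
    · simp [pt, c, t', lam, hy, Fintype.sum_sum_type]
    · simp [pt, c, t', lam, hx, Fintype.sum_sum_type]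
  have h1 : ∀ Q : MvPolynomial (Fin 2) E,
      aeval (pt (K := E) (fun a => algebraMap F G (x' a)) (fun i => algebraMap F G (c i))
        (fun i j => algebraMap F G (t' i j)) lam)
        (rename (Sum.inr : Fin 2 → Fin 0 ⊕ Fin 2) Q) = aeval ![y, x] Q := by
    intro Q
    rw [aeval_rename, hpt]
  have h2 := diff_rel h x' c t' lam δ (rename (Sum.inr : Fin 2 → Fin 0 ⊕ Fin 2) P)
    (by rw [h1]; exact hP)
  rw [Fin.sum_univ_two] at h2
  rw [pderiv_rename Sum.inr_injective, pderiv_rename Sum.inr_injective, h1, h1] at h2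
  have e0 : ∑ j, algebraMap E G (δ (lam ((0 : Fin 2), j))) * algebraMap F G (t' 0 j) =
      ∑ j, algebraMap E G (δ (n j)) * algebraMap F G (p j) := by
    simp [t', lam, Fintype.sum_sum_type]
  have e1 : ∑ j, algebraMap E G (δ (lam ((1 : Fin 2), j))) * algebraMap F G (t' 1 j) =
      ∑ j, algebraMap E G (δ (m j)) * algebraMap F G (t j) := by
    simp [t', lam, Fintype.sum_sum_type]
  rw [e0, e1] at h2
  have h3 : aeval (pt (K := E) (fun a => algebraMap F G (x' a)) (fun i => algebraMap F G (c i))
        (fun i j => algebraMap F G (t' i j)) lam)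
        (dcoef δ (rename (Sum.inr : Fin 2 → Fin 0 ⊕ Fin 2) P)) ∈
        IntermediateField.adjoin E {x, y} := by
    rw [aeval_def, eval₂_eq]
    refine sum_mem fun α _ => mul_mem ((IntermediateField.adjoin E {x, y}).algebraMap_mem _)
      (prod_mem fun l _ => pow_mem ?_ _)
    rcases l with a | i
    · exact a.elim0
    · have h4 := congrFun hpt i
      simp only [Function.comp_apply] at h4
      rw [h4]
      fin_cases i
      · exact IntermediateField.subset_adjoin E _ (by simp)
      · exact IntermediateField.subset_adjoin E _ (by simp)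
  have h5 := neg_mem h3
  have h6 : aeval ![y, x] (pderiv 0 P) *
        (∑ j, algebraMap E G (δ (n j)) * algebraMap F G (p j)) +
      aeval ![y, x] (pderiv 1 P) * (∑ j, algebraMap E G (δ (m j)) * algebraMap F G (t j)) =
      -(aeval (pt (K := E) (fun a => algebraMap F G (x' a)) (fun i => algebraMap F G (c i))
        (fun i j => algebraMap F G (t' i j)) lam)
        (dcoef δ (rename (Sum.inr : Fin 2 → Fin 0 ⊕ Fin 2) P))) := by
    rw [eq_neg_iff_add_eq_zero, add_comm]
    exact h2
  rw [h6]
  exact h5

/-- linear algebra: more rows than columns -/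
theorem exists_comb {E : Type} [Field E] {r b : ℕ} (hb : b < r) (A : Fin r → Fin b → E)
    (m : Fin r → E) (n : Fin b → E) (hn : n ≠ 0) :
    ∃ (lam : Fin r → E) (c : E), (∀ e : E, lam ≠ e • m) ∧ ∀ j, ∑ i, lam i * A i j = c * n j := by
  classical
  let Ψ : ((Fin r → E) × E) →ₗ[E] (Fin b → E) :=
    { toFun := fun v j => ∑ i, v.1 i * A i j - v.2 * n j
      map_add' := by
        intro v w
        funext j
        simp only [Prod.fst_add, Prod.snd_add, Pi.add_apply, add_mul, Finset.sum_add_distrib]
        ring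
      map_smul' := by
        intro e v
        funext j
        simp only [Prod.smul_fst, Prod.smul_snd, Pi.smul_apply, smul_eq_mul, RingHom.id_apply,
          mul_assoc, ← Finset.mul_sum]
        ring }
  have hker : 2 ≤ Module.finrank E (LinearMap.ker Ψ) := by
    have h1 := LinearMap.finrank_range_add_finrank_ker Ψ
    have h2 : Module.finrank E ((Fin r → E) × E) = r + 1 := by simp
    have h3 : Module.finrank E (LinearMap.range Ψ) ≤ b := by
      refine (Submodule.finrank_le _).trans ?_
      rw [Module.finrank_fintype_fun_eq_card, Fintype.card_fin]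
    omega
  have hzero : ∀ v ∈ LinearMap.ker Ψ, v.1 = 0 → v = 0 := by
    rintro ⟨lam, c⟩ hv h0
    simp only at h0
    have h1 : ∀ j, c * n j = 0 := fun j => by
      have h2 := congrFun (LinearMap.mem_ker.1 hv) j
      simp only [Ψ, LinearMap.coe_mk, AddHom.coe_mk, h0, Pi.zero_apply, zero_mul,
        Finset.sum_const_zero, zero_sub, neg_eq_zero] at h2
      exact h2
    obtain ⟨j, hj⟩ := Function.ne_iff.1 hn
    have h3 : c = 0 := (mul_eq_zero.1 (h1 j)).resolve_right hj
    rw [h0, h3]
    rfl
  by_contra hcon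
  push Not at hcon
  have hall : ∀ v ∈ LinearMap.ker Ψ, ∃ e : E, v.1 = e • m := by
    intro v hv
    by_contra h1
    push Not at h1
    obtain ⟨j, hj⟩ := hcon v.1 v.2 h1
    apply hj
    have h2 := congrFun (LinearMap.mem_ker.1 hv) j
    simp only [Ψ, LinearMap.coe_mk, AddHom.coe_mk, Pi.zero_apply] at h2
    exact sub_eq_zero.1 h2
  obtain ⟨v0, hv0, hne⟩ : ∃ v ∈ LinearMap.ker Ψ, v ≠ 0 := by
    by_contra h1
    push Not at h1
    have h2 : LinearMap.ker Ψ = ⊥ := by
      rw [eq_bot_iff]
      intro v hv
      exact (Submodule.mem_bot E).2 (h1 v hv)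
    rw [h2, finrank_bot] at hker
    omega
  obtain ⟨e0, he0⟩ := hall v0 hv0
  have he0' : e0 ≠ 0 := by
    rintro rfl
    exact hne (hzero v0 hv0 (by rw [he0, zero_smul]))
  have hle : LinearMap.ker Ψ ≤ Submodule.span E {v0} := by
    intro v hv
    obtain ⟨e, he⟩ := hall v hv
    rw [Submodule.mem_span_singleton]
    refine ⟨e / e0, ?_⟩
    have h1 : v - (e / e0) • v0 ∈ LinearMap.ker Ψ := sub_mem hv (Submodule.smul_mem _ _ hv0)
    have h2 := hzero _ h1 (by
      rw [Prod.fst_sub, Prod.smul_fst, he, he0, smul_smul, div_mul_cancel₀ _ he0', sub_self])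
    exact (sub_eq_zero.1 h2).symm
  have h1 := Submodule.finrank_mono hle
  have h2 : Module.finrank E (Submodule.span E {v0}) = 1 := finrank_span_singleton hne
  omega

theorem mem_adjoin2 {K E F G : Type} [Field K] [CharZero K] [IsAlgClosed K] [Field E]
    [IsAlgClosed E] [Field F]
    [Field G] [Algebra K E] [Algebra K F] [Algebra K G] [Algebra E G] [Algebra F G]
    [IsScalarTower K E G] [IsScalarTower K F G] (h : Disj K E F G) {r b d : ℕ} (hb : b < r)
    (t : Fin r → F)
    (ht : ∀ (c0 : K) (c : Fin r → K),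
      algebraMap K F c0 + ∑ j, algebraMap K F (c j) * t j = 0 → c0 = 0 ∧ ∀ j, c j = 0)
    (p : Fin b → F)
    (hp : ∀ (c0 : K) (c : Fin b → K),
      algebraMap K F c0 + ∑ j, algebraMap K F (c j) * p j = 0 → c0 = 0 ∧ ∀ j, c j = 0)
    (m : Fin r → E) (n : Fin b → E) (hm : AlgebraicIndependent K m) (hn : n ≠ 0) (x y : G)
    (hx : x = ∑ j, algebraMap E G (m j) * algebraMap F G (t j))
    (hy : y = ∑ j, algebraMap E G (n j) * algebraMap F G (p j))
    (hrel : ¬ Good E d ![y, x]) :
    ∀ j, algebraMap F G (t j) ∈ IntermediateField.adjoin E {x, y} := by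
  intro j0
  classical
  have hcE : CharZero E := charZero_of_injective_algebraMap (algebraMap K E).injective
  have hm0 : m ≠ 0 := fun h0 => hm.ne_zero j0 (by rw [h0]; rfl)
  have hxt : Transcendental E x := by
    rw [hx]
    exact transc_x h t ht m hm0
  have hyt : Transcendental E y := by
    rw [hy]
    exact transc_x h p hp n hn
  -- a relation of minimal degree
  have hex : ∃ N : ℕ, ∃ P : MvPolynomial (Fin 2) E, P ≠ 0 ∧ P.totalDegree = N ∧
      aeval ![y, x] P = 0 := by
    unfold Good at hrel
    push Not at hrel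
    obtain ⟨P, _, h2, h3⟩ := hrel
    exact ⟨_, P, h3, rfl, h2⟩
  obtain ⟨P, hP0, hPn, hP⟩ := Nat.find_spec hex
  have hmin : ∀ Q : MvPolynomial (Fin 2) E, aeval ![y, x] Q = 0 →
      Q.totalDegree < P.totalDegree → Q = 0 := by
    intro Q hQ hd
    by_contra hne
    exact Nat.find_min hex (hPn ▸ hd) ⟨Q, hne, rfl, hQ⟩
  -- `P_Y(x, y) ≠ 0` and `P_X(x, y) ≠ 0`
  have hX : aeval ![y, x] (pderiv 1 P) ≠ 0 := by
    intro h1
    have h2 : pderiv 1 P = 0 := by
      by_contra hne
      exact hne (hmin _ h1 (totalDegree_pderiv_lt 1 P hne))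
    obtain ⟨e, he⟩ := mem_of_pderiv P hP0 1 0 (by decide) h2 ![y, x] hP
    simp only [Matrix.cons_val_zero] at he
    exact hyt (he ▸ isAlgebraic_algebraMap e)
  have hder : ∀ i : Fin r, ∃ D : Derivation K E E, ∀ j, D (m j) = if j = i then 1 else 0 :=
    fun i => exists_der hm _
  choose D hD using hder
  obtain ⟨S, hS⟩ : ∃ S, S = IntermediateField.adjoin E {x, y} := ⟨_, rfl⟩
  have hxS : x ∈ S := by rw [hS]; exact IntermediateField.subset_adjoin E _ (by simp)
  have hyS : y ∈ S := by rw [hS]; exact IntermediateField.subset_adjoin E _ (by simp)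
  have hev : ∀ Q : MvPolynomial (Fin 2) E, aeval ![y, x] Q ∈ S := by
    intro Q
    rw [aeval_def, eval₂_eq]
    refine sum_mem fun α _ => mul_mem (S.algebraMap_mem _) (prod_mem fun l _ => pow_mem ?_ _)
    fin_cases l
    · exact hyS
    · exact hxS
  -- the combination
  obtain ⟨lam, c, hlam, hcomb⟩ := exists_comb hb (fun i j => D i (n j)) m n hn
  set z : G := ∑ i, algebraMap E G (lam i) * algebraMap F G (t i) with hz
  have hi : ∀ i, aeval ![y, x] (pderiv 0 P) *
      (∑ j, algebraMap E G (D i (n j)) * algebraMap F G (p j)) +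
        aeval ![y, x] (pderiv 1 P) * algebraMap F G (t i) ∈ S := by
    intro i
    have h1 := diff_mem2 h t p m n x y hx hy P hP (D i)
    have h2 : ∑ j, algebraMap E G (D i (m j)) * algebraMap F G (t j) = algebraMap F G (t i) := by
      rw [Finset.sum_eq_single i]
      · rw [hD, if_pos rfl, map_one, one_mul]
      · intro j _ hj
        rw [hD, if_neg hj, map_zero, zero_mul]
      · intro h3
        exact absurd (Finset.mem_univ _) h3
    rw [h2, ← hS] at h1
    exact h1
  have hsum : aeval ![y, x] (pderiv 0 P) * (algebraMap E G c * y) +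
      aeval ![y, x] (pderiv 1 P) * z ∈ S := by
    have h1 : ∑ i, algebraMap E G (lam i) * (aeval ![y, x] (pderiv 0 P) *
        (∑ j, algebraMap E G (D i (n j)) * algebraMap F G (p j)) +
          aeval ![y, x] (pderiv 1 P) * algebraMap F G (t i)) ∈ S :=
      sum_mem fun i _ => mul_mem (S.algebraMap_mem _) (hi i)
    have h2 : ∑ i, algebraMap E G (lam i) * (∑ j, algebraMap E G (D i (n j)) *
        algebraMap F G (p j)) = algebraMap E G c * y := by
      simp only [Finset.mul_sum]
      rw [Finset.sum_comm, hy, Finset.mul_sum]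
      refine Finset.sum_congr rfl fun j _ => ?_
      rw [← mul_assoc, ← map_mul, ← hcomb j, map_sum, Finset.sum_mul]
      refine Finset.sum_congr rfl fun i _ => ?_
      rw [map_mul]
      ring
    have h3 : ∑ i, algebraMap E G (lam i) * (aeval ![y, x] (pderiv 0 P) *
        (∑ j, algebraMap E G (D i (n j)) * algebraMap F G (p j)) +
          aeval ![y, x] (pderiv 1 P) * algebraMap F G (t i)) =
        aeval ![y, x] (pderiv 0 P) * (algebraMap E G c * y) +
          aeval ![y, x] (pderiv 1 P) * z := by
      rw [← h2, hz, Finset.mul_sum, Finset.mul_sum, ← Finset.sum_add_distrib]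
      refine Finset.sum_congr rfl fun i _ => ?_
      ring
    rw [← h3]
    exact h1
  have hzS : z ∈ S := by
    have h1 : z = (aeval ![y, x] (pderiv 0 P) * (algebraMap E G c * y) +
        aeval ![y, x] (pderiv 1 P) * z -
          aeval ![y, x] (pderiv 0 P) * (algebraMap E G c * y)) / aeval ![y, x] (pderiv 1 P) := by
      field_simp
      ring
    rw [h1]
    exact div_mem (sub_mem hsum (mul_mem (hev _) (mul_mem (S.algebraMap_mem _) hyS))) (hev _)
  -- the pair `x, z`
  obtain ⟨d', hd'⟩ := rel_of_mem x y z hxt hrel (by rw [← hS]; exact hzS)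
  have h1 := mem_adjoin h t ht m lam hm hlam x z hx hz hd' j0
  have h2 : IntermediateField.adjoin E {x, z} ≤ IntermediateField.adjoin E {x, y} := by
    rw [IntermediateField.adjoin_le_iff]
    rintro w (rfl | rfl)
    · rw [← hS]; exact hxS
    · rw [← hS]; exact hzS
  exact h2 h1

end Pool.Agent.QGen
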