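import Pool.Agent.QGen.OmEx
import Pool.Agent.QGen.TransA

/-! # Theorem G, step (5): from `G` to the algebraic closure of `E(X)` and back -/

namespace Pool.Agent.QGen

open MvPolynomial Pool.Agent.GenTuple Pool.Agent.QT Pool.Agent.QS

/-- the field `E(x, y)` is generated by `x, y` -/
theorem adjoin_top {E G : Type} [Field E] [Field G] [Algebra E G] (x y : G)
    (L : IntermediateField E G) (hL : L = IntermediateField.adjoin E {x, y}) (x' y' : L)
    (hx : (x' : G) = x) (hy : (y' : G) = y) :
    IntermediateField.adjoin E {x', y'} = ⊤ := by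
  have h1 : (IntermediateField.adjoin E {x', y'}).map L.val = L := by
    rw [IntermediateField.adjoin_map]
    have : (L.val '' {x', y'} : Set G) = {x, y} := by
      rw [Set.image_pair]
      change ({(x' : G), (y' : G)} : Set G) = _
      rw [hx, hy]
    rw [this, hL]
  rw [eq_top_iff]
  intro w _
  have h2 : (w : G) ∈ (IntermediateField.adjoin E {x', y'}).map L.val := by
    rw [h1]
    exact w.2
  obtain ⟨w', hw', h3⟩ := h2
  have : w' = w := Subtype.ext h3
  rw [← this]
  exact hw'

/-- the embedding -/
theorem exists_emb {E G : Type} [Field E] [Field G] [Algebra E G] {d : ℕ} (x y : G)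
    (hx : Transcendental E x) (hrel : ¬ Good E d ![y, x]) :
    ∃ (φ : IntermediateField.adjoin E {x, y} →ₐ[E] Om E 1)
      (x' y' : IntermediateField.adjoin E {x, y}), (x' : G) = x ∧ (y' : G) = y ∧
      φ x' = gx E 1 0 ∧ ∀ w, φ w ∈ IntermediateField.adjoin (Q E 1) {φ y'} := by
  classical
  obtain ⟨L, hL⟩ : ∃ L, L = IntermediateField.adjoin E {x, y} := ⟨_, rfl⟩
  rw [← hL]
  let x' : L := ⟨x, by rw [hL]; exact IntermediateField.subset_adjoin _ _ (by simp)⟩
  let y' : L := ⟨y, by rw [hL]; exact IntermediateField.subset_adjoin _ _ (by simp)⟩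
  have htop := adjoin_top x y L hL x' y' rfl rfl
  have hx' : Transcendental E x' := by
    intro ha
    exact hx (ha.algebraMap (A := G))
  have hAI : AlgebraicIndependent E (fun _ : Fin 1 => x') := by
    rw [algebraicIndependent_unique_type_iff]
    exact hx'
  let f0 : A E 1 →ₐ[E] L := aeval fun _ : Fin 1 => x'
  have hf0 : Function.Injective f0 := hAI
  let _ : Algebra (A E 1) L := f0.toRingHom.toAlgebra
  have hAL : ∀ a : A E 1, algebraMap (A E 1) L a = f0 a := fun _ => rfl
  have _ : IsScalarTower E (A E 1) L := IsScalarTower.of_algebraMap_eq fun e => by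
    rw [hAL]
    exact (f0.commutes e).symm
  have _ : FaithfulSMul (A E 1) L := (faithfulSMul_iff_algebraMap_injective _ _).2 hf0
  let _ : Algebra (Q E 1) L := FractionRing.liftAlgebra (A E 1) L
  have _ : IsScalarTower (A E 1) (Q E 1) L := FractionRing.isScalarTower_liftAlgebra (A E 1) L
  have i3 : IsScalarTower E (Q E 1) L := IsScalarTower.of_algebraMap_eq fun e => by
    rw [IsScalarTower.algebraMap_apply E (A E 1) L,
      IsScalarTower.algebraMap_apply (A E 1) (Q E 1) L,
      ← IsScalarTower.algebraMap_apply E (A E 1) (Q E 1)]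
  have hAx : algebraMap (A E 1) L (X 0) = x' := by
    rw [hAL]
    exact aeval_X _ _
  -- `y'` is algebraic
  obtain ⟨P, hPd, hP0, hPne⟩ : ∃ P : MvPolynomial (Fin 2) E, P.totalDegree ≤ d ∧
      aeval ![y, x] P = 0 ∧ P ≠ 0 := by
    unfold Good at hrel
    push Not at hrel
    exact hrel
  have hPL : aeval ![y', x'] P = 0 := by
    apply Subtype.val_injective
    have h1 : L.val (aeval ![y', x'] P) = aeval ![y, x] P := by
      rw [← AlgHom.comp_apply, comp_aeval]
      congr 2
      funext l
      fin_cases l <;> rfl
    change L.val (aeval ![y', x'] P) = 0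
    rw [h1, hP0]
  have hyA : IsAlgebraic (A E 1) y' := by
    refine ⟨finSuccEquiv E 1 P, ?_, ?_⟩
    · rwa [Ne, EmbeddingLike.map_eq_zero_iff]
    · have h1 : ∀ R : MvPolynomial (Fin 2) E,
          Polynomial.aeval y' (finSuccEquiv E 1 R) = aeval ![y', x'] R := by
        intro R
        have h2 : ((Polynomial.aeval y').restrictScalars E :
            Polynomial (A E 1) →ₐ[E] L).comp (finSuccEquiv E 1).toAlgHom = aeval ![y', x'] := by
          refine algHom_ext fun i => ?_
          refine Fin.cases ?_ (fun i => ?_) i
          · change Polynomial.aeval y' (finSuccEquiv E 1 (X 0)) = _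
            rw [finSuccEquiv_X_zero, Polynomial.aeval_X, aeval_X]
            rfl
          · have hi : i = 0 := Subsingleton.elim _ _
            subst hi
            change Polynomial.aeval y' (finSuccEquiv E 1 (X (Fin.succ 0))) = _
            rw [finSuccEquiv_X_succ, Polynomial.aeval_C, hAx, aeval_X]
            rfl
        exact DFunLike.congr_fun h2 R
      rw [h1, hPL]
  have hyQ : IsAlgebraic (Q E 1) y' := hyA.extendScalars (IsFractionRing.injective (A E 1) (Q E 1))
  have halg : Algebra.IsAlgebraic (Q E 1) L := by
    refine ⟨fun w => ?_⟩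
    have h1 : (IntermediateField.adjoin E {x', y'} : IntermediateField E L) ≤
        (algebraicClosure (Q E 1) L).restrictScalars E := by
      rw [IntermediateField.adjoin_le_iff]
      rintro z (rfl | rfl)
      · rw [← hAx, IsScalarTower.algebraMap_apply (A E 1) (Q E 1) L]
        exact (algebraicClosure (Q E 1) L).algebraMap_mem _
      · exact mem_algebraicClosure_iff.2 hyQ
    rw [htop] at h1
    exact mem_algebraicClosure_iff.1 (h1 (IntermediateField.mem_top (x := w)))
  let φ0 : L →ₐ[Q E 1] Om E 1 := IsAlgClosed.lift
  let φ : L →ₐ[E] Om E 1 := φ0.restrictScalars E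
  have hφ : ∀ w, φ w = φ0 w := fun _ => rfl
  refine ⟨φ, x', y', rfl, rfl, ?_, ?_⟩
  · rw [hφ, ← hAx, IsScalarTower.algebraMap_apply (A E 1) (Q E 1) L, φ0.commutes]
    exact (IsScalarTower.algebraMap_apply (A E 1) (Q E 1) (Om E 1) _).symm
  · intro w
    have h1 : (IntermediateField.adjoin E {x', y'} : IntermediateField E L) ≤
        ((IntermediateField.adjoin (Q E 1) {φ y'}).restrictScalars E).comap φ := by
      rw [IntermediateField.adjoin_le_iff]
      rintro z (rfl | rfl)
      · change φ x' ∈ IntermediateField.adjoin (Q E 1) {φ y'}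
        rw [hφ x', ← hAx, IsScalarTower.algebraMap_apply (A E 1) (Q E 1) L, φ0.commutes]
        exact IntermediateField.algebraMap_mem _ _
      · exact IntermediateField.mem_adjoin_simple_self _ _
    rw [htop] at h1
    exact h1 (IntermediateField.mem_top (x := w))

theorem all_rel {K E F G : Type} [Field K] [CharZero K] [IsAlgClosed K] [Field E] [IsAlgClosed E]
    [Field F] [Field G] [Algebra K E] [Algebra K F] [Algebra K G] [Algebra E G] [Algebra F G]
    [IsScalarTower K E G] [IsScalarTower K F G] (h : Disj K E F G) {r d : ℕ} (t : Fin r → F)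
    (ht : ∀ (c0 : K) (c : Fin r → K),
      algebraMap K F c0 + ∑ j, algebraMap K F (c j) * t j = 0 → c0 = 0 ∧ ∀ j, c j = 0)
    (m : Fin r → E) (hm : AlgebraicIndependent K m) (hr : 0 < r) (x y : G)
    (hx : x = ∑ j, algebraMap E G (m j) * algebraMap F G (t j))
    (hrel : ¬ Good E d ![y, x])
    (hmem : ∀ j, algebraMap F G (t j) ∈ IntermediateField.adjoin E {x, y}) (c : Fin r → E) :
    ¬ Good E d ![∑ j, algebraMap E G (c j) * algebraMap F G (t j), x] := by
  classical
  have hCE : CharZero E := charZero_of_injective_algebraMap (algebraMap K E).injective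
  have hm0 : m ≠ 0 := fun h0 => hm.ne_zero ⟨0, hr⟩ (by rw [h0]; rfl)
  have hxt : Transcendental E x := by
    rw [hx]
    exact transc_x h t ht m hm0
  obtain ⟨φ, x', y', hx', hy', hφx, hφ⟩ := exists_emb x y hxt hrel
  have hinj : Function.Injective φ := φ.toRingHom.injective
  -- relations in `G` and in `Om`
  have hval : ∀ (z : IntermediateField.adjoin E {x, y}) (R : MvPolynomial (Fin 2) E),
      aeval ![(z : G), x] R = 0 ↔
        aeval (Fin.cons (φ z) (gx E 1) : Fin (1 + 1) → Om E 1) R = 0 := by
    intro z R
    have h1 : ((aeval ![z, x'] R : IntermediateField.adjoin E {x, y}) : G) =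
        aeval ![(z : G), x] R := by
      have h2 : (IntermediateField.adjoin E {x, y}).val (aeval ![z, x'] R) =
          aeval ![(z : G), x] R := by
        rw [← AlgHom.comp_apply, comp_aeval]
        congr 2
        funext l
        fin_cases l
        · rfl
        · exact hx'
      exact h2
    have h3 : φ (aeval ![z, x'] R) =
        aeval (Fin.cons (φ z) (gx E 1) : Fin (1 + 1) → Om E 1) R := by
      rw [← AlgHom.comp_apply, comp_aeval]
      congr 2
      funext l
      refine Fin.cases ?_ (fun l => ?_) l
      · rfl
      · have hl : l = 0 := Subsingleton.elim _ _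
        subst hl
        exact hφx
    rw [← h1, ← h3, map_eq_zero_iff φ hinj]
    exact ZeroMemClass.coe_eq_zero
  have hEx : Ex E 1 d (φ y') := by
    have h1 := hrel
    unfold Good at h1
    push Not at h1
    obtain ⟨P, hPd, hP0, hPne⟩ := h1
    refine ⟨P, hPne, hPd, (hval y' P).1 ?_⟩
    rw [hy', hP0]
  let τ : Fin r → IntermediateField.adjoin E {x, y} := fun j => ⟨algebraMap F G (t j), hmem j⟩
  have hτ : ∀ j, (τ j : G) = algebraMap F G (t j) := fun _ => rfl
  have hsum : ∀ c : Fin r → E,
      ((∑ j, algebraMap E (IntermediateField.adjoin E {x, y}) (c j) * τ j :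
        IntermediateField.adjoin E {x, y}) : G) =
          ∑ j, algebraMap E G (c j) * algebraMap F G (t j) := by
    intro c
    have h1 : (IntermediateField.adjoin E {x, y}).val
        (∑ j, algebraMap E (IntermediateField.adjoin E {x, y}) (c j) * τ j) =
          ∑ j, algebraMap E G (c j) * algebraMap F G (t j) := by
      rw [map_sum]
      exact Finset.sum_congr rfl fun j _ => rfl
    exact h1
  have hφsum : ∀ c : Fin r → E,
      φ (∑ j, algebraMap E (IntermediateField.adjoin E {x, y}) (c j) * τ j) =
        ∑ j, algebraMap E (Om E 1) (c j) * φ (τ j) := by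
    intro c
    rw [map_sum]
    refine Finset.sum_congr rfl fun j _ => ?_
    rw [map_mul, φ.commutes]
  have key := ex_all (K := K) (d := d) m hm.linearIndependent (fun j => φ (τ j)) (by
      rw [← hφsum, ← hφx]
      congr 1
      apply Subtype.val_injective
      rw [hsum, hx', hx])
    (fun i j => by
      obtain ⟨R, hR, hR0⟩ := pair_rel h t x y hxt hrel hmem i j
      refine ⟨R, hR, ?_⟩
      have h1 : eval₂ ((algebraMap E (IntermediateField.adjoin E {x, y})).comp (algebraMap K E))
          ![τ i, τ j] R = 0 := by
        apply (algebraMap (IntermediateField.adjoin E {x, y}) G).injective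
        rw [map_zero, eval₂_comp_left]
        have h2 := congrArg (algebraMap F G) hR0
        rw [map_zero, aeval_def, eval₂_comp_left] at h2
        rw [← h2]
        congr 1
        · refine RingHom.ext fun e => ?_
          change algebraMap E G (algebraMap K E e) = algebraMap F G (algebraMap K F e)
          rw [← IsScalarTower.algebraMap_apply, ← IsScalarTower.algebraMap_apply]
        · funext l
          fin_cases l <;> rfl
      have h2 := congrArg φ.toRingHom h1
      rw [map_zero, eval₂_comp_left] at h2
      rw [← h2]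
      congr 1
      · refine RingHom.ext fun e => ?_
        exact (φ.commutes (algebraMap K E e)).symm
      · funext l
        fin_cases l <;> rfl)
    (φ y') hEx (fun j => hφ (τ j)) c
  rw [← hφsum] at key
  obtain ⟨P, hP, hPd, hP0⟩ := key
  intro hg
  refine hP (hg P hPd ?_)
  have h1 := (hval _ P).2 hP0
  rw [hsum] at h1
  exact h1

end Pool.Agent.QGen
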