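import Pool.Agent.QGen.Alg
import Pool.Agent.QGen.Trans
import Pool.Agent.QGen.Pts
import Pool.Agent.QGen.Ultra

/-! # Theorem G over an algebraically closed field -/

namespace Pool.Agent.QGen

open MvPolynomial Pool.Agent.GenTuple Pool.Agent.QT

theorem generic {K F : Type} [Field K] [CharZero K] [IsAlgClosed K] [Field F] [Algebra K F]
    {r d : ℕ} (hdr : d < r) (t : Fin r → F)
    (ht : ∀ (c0 : K) (c : Fin r → K),
      algebraMap K F c0 + ∑ j, algebraMap K F (c j) * t j = 0 → c0 = 0 ∧ ∀ j, c j = 0) :
    ∃ Φ : MvPolynomial (Fin r) K, Φ ≠ 0 ∧ ∀ m n : Fin r → K, eval m Φ ≠ 0 →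
      (∀ c : K, n ≠ c • m) →
        Good K d ![∑ j, algebraMap K F (n j) * t j, ∑ j, algebraMap K F (m j) * t j] := by
  refine ultra (by omega) t fun E G _ _ _ _ _ _ _ _ _ hD m n hm hn hrel => ?_
  have hτ : ∀ (c0 : E) (c : Fin r → E),
      algebraMap E G c0 + ∑ j, algebraMap E G (c j) * algebraMap F G (t j) = 0 →
        c0 = 0 ∧ ∀ j, c j = 0 := by
    have h1 : LinearIndependent K (fun o : Option (Fin r) => (o.elim 1 t : F)) := by
      rw [Fintype.linearIndependent_iff]
      intro g hg
      have h2 := ht (g none) (fun j => g (some j)) (by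
        rw [← hg, Fintype.sum_option]
        simp only [Option.elim, Algebra.smul_def, mul_one])
      intro o
      cases o with
      | none => exact h2.1
      | some j => exact h2.2 j
    have h2 := Fintype.linearIndependent_iff.1 (hD (Option (Fin r)) _ h1)
    intro c0 c hc
    have h3 := h2 (fun o => o.elim c0 c) (by
      rw [← hc, Fintype.sum_option]
      simp only [Option.elim, Algebra.smul_def, map_one, mul_one])
    exact ⟨h3 none, fun j => h3 (some j)⟩
  have h1 := mem_adjoin hD t ht m n hm hn _ _ rfl rfl hrel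
  have h2 := all_rel hD t ht m hm (by omega) _ _ rfl hrel h1
  have h3 := dim_le (fun j => algebraMap F G (t j)) hτ m
    (fun h => hm.ne_zero ⟨0, by omega⟩ (by rw [h]; rfl)) h2
  omega

end Pool.Agent.QGen
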