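import Pool.Agent.QT.UltraK
import Pool.Agent.QT.Pts

/-! # Theorem G', step (1): the generic pair in the ultrapower, two spaces -/

set_option autoImplicit false

namespace Pool.Agent.QGen

open MvPolynomial Pool.Agent.GenTuple Pool.Agent.QT

theorem ultra2 {K F : Type} [Field K] [CharZero K] [IsAlgClosed K] [Field F] [Algebra K F]
    {r b d : ℕ} (t : Fin r → F) (p : Fin b → F)
    (hcore : ∀ (E G : Type) [Field E] [Field G] [IsAlgClosed E] [Algebra K E] [Algebra K G]
      [Algebra E G] [Algebra F G] [IsScalarTower K E G] [IsScalarTower K F G] (_ : Disj K E F G)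
      (m : Fin r → E) (n : Fin b → E) (_ : AlgebraicIndependent K m) (_ : n ≠ 0)
      (_ : ¬ Good E d ![∑ j, algebraMap E G (n j) * algebraMap F G (p j),
        ∑ j, algebraMap E G (m j) * algebraMap F G (t j)]), False) :
    ∃ Φ : MvPolynomial (Fin r) K, Φ ≠ 0 ∧ ∀ (m : Fin r → K) (n : Fin b → K), eval m Φ ≠ 0 →
      n ≠ 0 →
        Good K d ![∑ j, algebraMap K F (n j) * p j, ∑ j, algebraMap K F (m j) * t j] := by
  classical
  by_contra hne
  have hA : ∀ Φ : MvPolynomial (Fin r) K, Φ ≠ 0 → ∃ (m : Fin r → K) (n : Fin b → K),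
      eval m Φ ≠ 0 ∧ n ≠ 0 ∧
        ¬ Good K d ![∑ j, algebraMap K F (n j) * p j, ∑ j, algebraMap K F (m j) * t j] := by
    intro Φ hΦ
    by_contra h1
    refine hne ⟨Φ, hΦ, fun m n h2 h3 => ?_⟩
    by_contra h4
    exact h1 ⟨m, n, h2, h3, h4⟩
  let vv : (Fin r → K) × (Fin b → K) → Fin 2 → F := fun q =>
    ![∑ j, algebraMap K F (q.2 j) * p j, ∑ j, algebraMap K F (q.1 j) * t j]
  let B : Type := {q : (Fin r → K) × (Fin b → K) // q.2 ≠ 0 ∧ ¬ Good K d (vv q)}
  -- the filter
  let Fi : Filter B :=
    { sets := {S | ∃ f : MvPolynomial (Fin r) K, f ≠ 0 ∧ {b : B | eval b.1.1 f ≠ 0} ⊆ S}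
      univ_sets := ⟨1, one_ne_zero, Set.subset_univ _⟩
      sets_of_superset := by
        rintro S S' ⟨f, hf, h1⟩ h2
        exact ⟨f, hf, h1.trans h2⟩
      inter_sets := by
        rintro S S' ⟨f, hf, h1⟩ ⟨g, hg, h2⟩
        refine ⟨f * g, mul_ne_zero hf hg, ?_⟩
        intro b hb
        have hb' : eval b.1.1 (f * g) ≠ 0 := hb
        rw [map_mul] at hb'
        exact ⟨h1 (left_ne_zero_of_mul hb'), h2 (right_ne_zero_of_mul hb')⟩ }
  have hNe : Fi.NeBot := by
    rw [Filter.neBot_iff]
    intro hbot
    have h1 : (∅ : Set B) ∈ Fi := by rw [hbot]; exact Filter.mem_bot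
    obtain ⟨f, hf, h2⟩ := h1
    obtain ⟨m, n, h3, h4, h5⟩ := hA f hf
    exact (h2 (show (⟨(m, n), h4, h5⟩ : B) ∈ {b : B | eval b.1.1 f ≠ 0} from h3))
  let U : Ultrafilter B := Ultrafilter.of Fi
  have hU : (U : Filter B) ≤ Fi := Ultrafilter.of_le Fi
  have hUf : ∀ f : MvPolynomial (Fin r) K, f ≠ 0 → ∀ᶠ b in (U : Filter B), eval b.1.1 f ≠ 0 :=
    fun f hf => hU ⟨f, hf, subset_rfl⟩
  let E := UP U K
  let G := UP U F
  let _ : Algebra E G := (UP.mapHom U K F).toAlgebra
  have hEG : ∀ f : B → K, algebraMap E G (cl U K f) = cl U F (fun b => algebraMap K F (f b)) :=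
    fun _ => rfl
  have _ : IsScalarTower K E G := IsScalarTower.of_algebraMap_eq fun a => rfl
  have _ : IsScalarTower K F G := IsScalarTower.of_algebraMap_eq fun a => rfl
  -- disjointness
  have hdisj : Disj K E F G := by
    intro κ _ f hf
    rw [Fintype.linearIndependent_iff] at hf ⊢
    intro g hg
    choose g' hg' using fun i => cl_surj U K (g i)
    have h1 : (∑ i, g i • algebraMap F G (f i)) =
        cl U F (fun b => ∑ i, algebraMap K F (g' i b) * f i) := by
      have h2 : (fun b => ∑ i, algebraMap K F (g' i b) * f i) =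
          ∑ i, (fun b => algebraMap K F (g' i b)) * (fun _ => f i) := by
        funext b
        rw [Finset.sum_apply]
        rfl
      rw [h2, map_sum]
      refine Finset.sum_congr rfl fun i _ => ?_
      rw [Algebra.smul_def, map_mul, ← hg' i, hEG]
      rfl
    rw [h1, cl_eq_zero] at hg
    intro i
    rw [← hg' i, cl_eq_zero]
    filter_upwards [hg] with b hb
    exact hf (fun i => g' i b) (by
      rw [← hb]
      exact Finset.sum_congr rfl fun i _ => by rw [Algebra.smul_def]) i
  -- the points
  let mS : Fin r → E := fun j => cl U K (fun b => b.1.1 j)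
  let nS : Fin b → E := fun j => cl U K (fun b => b.1.2 j)
  have hAI : AlgebraicIndependent K mS := by
    rw [algebraicIndependent_iff]
    intro f hf
    by_contra hf0
    have h1 : aeval mS f = cl U K (fun b => eval b.1.1 f) := by
      have h2 : (fun b : B => eval b.1.1 f) =
          eval₂ (Pi.constRingHom B K) (fun a : Fin r => fun b : B => b.1.1 a) f := by
        funext b
        have h3 := congrArg (fun g => g f) (MvPolynomial.ringHom_ext
          (f := (Pi.evalRingHom (fun _ : B => K) b).comp
            (eval₂Hom (Pi.constRingHom B K) (fun a : Fin r => fun b : B => b.1.1 a)))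
          (g := eval b.1.1) (by intro r; simp) (by intro i; simp))
        exact h3.symm
      rw [h2, ← coe_eval₂Hom, ← RingHom.comp_apply]
      have h4 := congrArg (fun g => g f) (MvPolynomial.ringHom_ext
          (f := (cl U K).comp
            (eval₂Hom (Pi.constRingHom B K) (fun a : Fin r => fun b : B => b.1.1 a)))
          (g := (aeval mS : MvPolynomial (Fin r) K →ₐ[K] E).toRingHom) (by
            intro r
            simp only [RingHom.comp_apply, coe_eval₂Hom, eval₂_C, AlgHom.toRingHom_eq_coe,
              RingHom.coe_coe, aeval_C]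
            rfl) (by
            intro i
            simp only [RingHom.comp_apply, coe_eval₂Hom, eval₂_X, AlgHom.toRingHom_eq_coe,
              RingHom.coe_coe, aeval_X]
            rfl))
      exact h4.symm
    rw [h1, cl_eq_zero] at hf
    obtain ⟨b, h6, h7⟩ := (hf.and (hUf f hf0)).exists
    exact h7 h6
  have hn : nS ≠ 0 := by
    intro hc
    have h1 : ∀ j ∈ (Finset.univ : Finset (Fin b)), ∀ᶠ b in (U : Filter B), b.1.2 j = 0 := by
      intro j _
      have h2 : nS j = 0 := congrFun hc j
      exact (cl_eq_zero U K _).1 h2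
    obtain ⟨b, hb⟩ := ((Filter.eventually_all_finset Finset.univ).2 h1).exists
    refine b.2.1 ?_
    funext j
    exact hb j (Finset.mem_univ j)
  -- the relation
  have hrel : ¬ Good E d ![∑ j, algebraMap E G (nS j) * algebraMap F G (p j),
      ∑ j, algebraMap E G (mS j) * algebraMap F G (t j)] := by
    have hB : ∀ b : B, ∃ P : MvPolynomial (Fin 2) K, P.totalDegree ≤ d ∧
        aeval (vv b.1) P = 0 ∧ P ≠ 0 := by
      intro b
      have h1 := b.2.2
      unfold Good at h1
      push Not at h1
      exact h1
    choose P hPd hP hP0 using hB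
    let Q : MvPolynomial (Fin 2) E := ∑ α ∈ lowDeg (Fin 2) d,
      monomial α (cl U K (fun b => (P b).coeff α))
    have hQc : ∀ α ∈ lowDeg (Fin 2) d, Q.coeff α = cl U K (fun b => (P b).coeff α) := by
      intro α hα
      simp only [Q]
      rw [coeff_sum, Finset.sum_eq_single α]
      · rw [coeff_monomial, if_pos rfl]
      · intro β _ hβ
        rw [coeff_monomial, if_neg hβ]
      · intro h3
        exact absurd hα h3
    have hQd : Q.totalDegree ≤ d := by
      refine (totalDegree_finsetSum _ _).trans (Finset.sup_le fun α hα => ?_)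
      refine (totalDegree_monomial_le _ _).trans ?_
      rw [Finsupp.sum_fintype _ _ (fun _ => rfl)]
      exact mem_lowDeg.1 hα
    have hy : ![∑ j, algebraMap E G (nS j) * algebraMap F G (p j),
        ∑ j, algebraMap E G (mS j) * algebraMap F G (t j)] =
          fun l => cl U F (fun b : B => vv b.1 l) := by
      have h0 : ∀ (l : ℕ) (t : Fin l → F) (g : B → Fin l → K),
          (∑ j, algebraMap E G (cl U K fun b => g b j) * algebraMap F G (t j)) =
            cl U F (fun b => ∑ j, algebraMap K F (g b j) * t j) := by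
        intro l t g
        have h1 : (fun b : B => ∑ j, algebraMap K F (g b j) * t j) =
            ∑ j, (fun b : B => algebraMap K F (g b j)) * (fun _ => t j) := by
          funext b
          rw [Finset.sum_apply]
          rfl
        rw [h1, map_sum]
        refine Finset.sum_congr rfl fun j _ => ?_
        rw [map_mul]
        rfl
      funext l
      refine Fin.cases ?_ (fun l => Fin.cases ?_ (fun l => l.elim0) l) l
      · exact h0 b p fun b => b.1.2
      · exact h0 r t fun b => b.1.1
    intro hG
    refine absurd (hG Q hQd ?_) ?_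
    · rw [hy, aeval_eq_sum d _ Q hQd]
      have h1 : ∀ α ∈ lowDeg (Fin 2) d,
          Q.coeff α • mon (fun l => cl U F (fun b : B => vv b.1 l)) α =
          cl U F (fun b => (P b).coeff α • mon (vv b.1) α) := by
        intro α hα
        rw [mon_cl U (fun b : B => vv b.1), hQc α hα, Algebra.smul_def, hEG, ← map_mul]
        congr 1
        funext b
        rw [Algebra.smul_def]
        rfl
      rw [Finset.sum_congr rfl h1, ← map_sum, cl_eq_zero]
      refine Filter.Eventually.of_forall fun b => ?_
      rw [Finset.sum_apply, ← aeval_eq_sum d _ (P b) (hPd b)]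
      exact hP b
    · intro hQ
      have h1 : ∀ α ∈ lowDeg (Fin 2) d, ∀ᶠ b in (U : Filter B), (P b).coeff α = 0 := by
        intro α hα
        rw [← cl_eq_zero U K (fun b => (P b).coeff α), ← hQc α hα, hQ, coeff_zero]
      have h2 := (Filter.eventually_all_finset (lowDeg (Fin 2) d)).2 h1
      obtain ⟨b, hb⟩ := h2.exists
      apply hP0 b
      ext α
      rw [coeff_zero]
      by_cases hα : α ∈ (P b).support
      · refine hb α ?_
        rw [mem_lowDeg]
        have h2 := le_totalDegree hα
        rw [Finsupp.sum_fintype _ _ (fun _ => rfl)] at h2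
        exact h2.trans (hPd b)
      · exact notMem_support_iff.1 hα
  have hcl : IsAlgClosed E := UP_isAlgClosed U K
  exact hcore E G hdisj mS nS hAI hn hrel

end Pool.Agent.QGen
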