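import Pool.Agent.QGen.Alg2
import Pool.Agent.QGen.Trans
import Pool.Agent.QGen.Pts
import Pool.Agent.QGen.Ultra2

/-! # Theorem G' over an algebraically closed field -/

namespace Pool.Agent.QGen

open MvPolynomial Pool.Agent.GenTuple Pool.Agent.QT

/-- **Theorem G'.** Almost every element of a space of dimension `r > d` has no relation of degree
at most `d` with any nonzero element of a given space of dimension less than `r`. -/
theorem generic2 {K F : Type} [Field K] [CharZero K] [IsAlgClosed K] [Field F] [Algebra K F]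
    {r b d : ℕ} (hdr : d < r) (hb : b < r) (t : Fin r → F)
    (ht : ∀ (c0 : K) (c : Fin r → K),
      algebraMap K F c0 + ∑ j, algebraMap K F (c j) * t j = 0 → c0 = 0 ∧ ∀ j, c j = 0)
    (p : Fin b → F)
    (hp : ∀ (c0 : K) (c : Fin b → K),
      algebraMap K F c0 + ∑ j, algebraMap K F (c j) * p j = 0 → c0 = 0 ∧ ∀ j, c j = 0) :
    ∃ Φ : MvPolynomial (Fin r) K, Φ ≠ 0 ∧ ∀ (m : Fin r → K) (n : Fin b → K), eval m Φ ≠ 0 →
      n ≠ 0 →
        Good K d ![∑ j, algebraMap K F (n j) * p j, ∑ j, algebraMap K F (m j) * t j] := by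
  refine ultra2 t p fun E G _ _ _ _ _ _ _ _ _ hD m n hm hn hrel => ?_
  have hτ := fun (c0 : E) (c : Fin r → E) => indep_E hD t ht c0 c
  have h1 := mem_adjoin2 hD hb t ht p hp m n hm hn _ _ rfl rfl hrel
  have h2 := all_rel hD t ht m hm (by omega) _ _ rfl hrel h1
  have h3 := dim_le (fun j => algebraMap F G (t j)) hτ m
    (fun h => hm.ne_zero ⟨0, by omega⟩ (by rw [h]; rfl)) h2
  omega

end Pool.Agent.QGen
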