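import Pool.Agent.QNH.ShiftH

/-! # Homogeneous relations with a given number, any number of variables -/

namespace Pool.Agent.QGen

open MvPolynomial Pool.Agent.QNH

theorem dehom {n d : ℕ} {w : ℂ} (hw : w ≠ 0) {z : Fin n → ℂ} {P : MvPolynomial (Fin (n + 1)) ℂ}
    (hP : P ≠ 0) (hh : P.IsHomogeneous d) (ha : ∀ m, IsAlgebraic ℚ (P.coeff m))
    (he : eval (Fin.cons w z : Fin (n + 1) → ℂ) P = 0) :
    ∃ Q : MvPolynomial (Fin n) ℂ, Q ≠ 0 ∧ Q.totalDegree ≤ d ∧
      (∀ m, IsAlgebraic ℚ (Q.coeff m)) ∧ eval (fun i => z i / w) Q = 0 := by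
  let g : Fin (n + 1) → MvPolynomial (Fin n) ℂ := Fin.cons 1 X
  have hev : ∀ z : Fin n → ℂ, eval z (bind₁ g P) = eval (Fin.cons 1 z : Fin (n + 1) → ℂ) P :=
      fun z => by
    rw [← coe_aeval_eq_eval, ← coe_aeval_eq_eval]
    simp only [RingHom.coe_coe]
    rw [aeval_bind₁]
    congr 2
    funext i
    refine Fin.cases ?_ (fun i => ?_) i
    · simp [g]
    · simp [g]
  have hscale : ∀ (a : ℂ) (z : Fin n → ℂ), a ≠ 0 → eval (Fin.cons a z : Fin (n + 1) → ℂ) P =
      a ^ d * eval (Fin.cons 1 (fun i => z i / a) : Fin (n + 1) → ℂ) P := by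
    intro a z hac
    rw [eval_eq, eval_eq, Finset.mul_sum]
    refine Finset.sum_congr rfl fun e he => ?_
    have hd : ∑ i ∈ e.support, e i = d := by
      have h1 := hh (mem_support_iff.1 he)
      rw [Finsupp.weight_apply] at h1
      simpa [Finsupp.sum] using h1
    have h2 : ∀ i : Fin (n + 1), (Fin.cons a z : Fin (n + 1) → ℂ) i =
        a * (Fin.cons 1 (fun i => z i / a) : Fin (n + 1) → ℂ) i := by
      intro i
      refine Fin.cases ?_ (fun i => ?_) i
      · simp
      · simp [mul_div_cancel₀ _ hac]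
    have h3 : ∏ i ∈ e.support, (Fin.cons a z : Fin (n + 1) → ℂ) i ^ e i =
        a ^ d * ∏ i ∈ e.support,
          (Fin.cons 1 (fun i => z i / a) : Fin (n + 1) → ℂ) i ^ e i := by
      rw [← hd, ← Finset.prod_pow_eq_pow_sum, ← Finset.prod_mul_distrib]
      exact Finset.prod_congr rfl fun i _ => by rw [h2 i, mul_pow]
    rw [h3]
    ring
  refine ⟨bind₁ g P, ?_, ?_, ?_, ?_⟩
  · intro h
    apply hP
    have h1 : X 0 * P = 0 := by
      refine MvPolynomial.funext fun z => ?_
      rw [map_mul, eval_X, map_zero]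
      by_cases hz : z 0 = 0
      · rw [hz, zero_mul]
      · have h2 : z = Fin.cons (z 0) (Fin.tail z) := (Fin.cons_self_tail z).symm
        have h4 : eval z P = 0 := by
          rw [h2, hscale _ _ hz, ← hev, h, map_zero, mul_zero]
        rw [h4, mul_zero]
    exact (mul_eq_zero.1 h1).resolve_left (X_ne_zero 0)
  · refine (totalDegree_bind g (fun i => ?_) P).trans hh.totalDegree_le
    refine Fin.cases ?_ (fun i => ?_) i
    · simp [g]
    · simp [g, totalDegree_X]
  · refine alg_bind g (fun i m => ?_) ha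
    classical
    refine Fin.cases ?_ (fun i => ?_) i
    · simp only [g, Fin.cons_zero]
      rw [← C_1, coeff_C]
      split_ifs
      · exact isAlgebraic_one
      · exact isAlgebraic_zero
    · simp only [g, Fin.cons_succ]
      rw [coeff_X]
      split_ifs
      · exact isAlgebraic_one
      · exact isAlgebraic_zero
  · rw [hev]
    have h1 := hscale w z hw
    rw [he] at h1
    exact ((mul_eq_zero.1 h1.symm).resolve_left (pow_ne_zero _ hw))

end Pool.Agent.QGen
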