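import Pool.Agent.QN.Cmp
import Pool.Agent.QS.Rec
import Pool.Agent.QGen.Res

/-! # Theorem G, step (5), in the algebraic closure of `E(X)` -/

namespace Pool.Agent.QGen

open MvPolynomial Pool.Agent.QS Pool.Agent.QN

private theorem ome_field {E : Type} [Field E] [CharZero E] (y : Om E 1) :
    ∃ M : IntermediateField (Q E 1) (Om E 1), FiniteDimensional (Q E 1) M ∧
      IsGalois (Q E 1) M ∧ IntermediateField.adjoin (Q E 1) {y} ≤ M := by
  let L : IntermediateField (Q E 1) (Om E 1) := IntermediateField.adjoin (Q E 1) {y}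
  have hL : FiniteDimensional (Q E 1) L :=
    IntermediateField.finiteDimensional_adjoin fun x _ => Algebra.IsIntegral.isIntegral x
  exact ⟨IntermediateField.normalClosure (Q E 1) L (Om E 1), inferInstance, ⟨⟩,
    IntermediateField.le_normalClosure L⟩

theorem ex_all {K E : Type} [Field K] [IsAlgClosed K] [Field E] [CharZero E] [Algebra K E]
    {r d : ℕ} (m : Fin r → E) (hm : LinearIndependent K m) (ζ : Fin r → Om E 1)
    (hx : ∑ j, algebraMap E (Om E 1) (m j) * ζ j = gx E 1 0)
    (hK : ∀ i j, ∃ R : MvPolynomial (Fin 2) K, R ≠ 0 ∧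
      eval₂ ((algebraMap E (Om E 1)).comp (algebraMap K E)) ![ζ i, ζ j] R = 0)
    (y : Om E 1) (hy : Ex E 1 d y) (hζ : ∀ j, ζ j ∈ IntermediateField.adjoin (Q E 1) {y})
    (c : Fin r → E) : Ex E 1 d (∑ j, algebraMap E (Om E 1) (c j) * ζ j) := by
  classical
  obtain ⟨M, hMf, hMg, hyM⟩ := ome_field y
  have i1 : IsScalarTower (A E 1) (Q E 1) M := inferInstance
  have i2 : IsScalarTower E (Q E 1) M := inferInstance
  have i5 : IsScalarTower (A E 1) M (Om E 1) := IsScalarTower.of_algebraMap_eq fun a => rfl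
  let g : M →+* Om E 1 := M.val.toRingHom
  have hg : Function.Injective g := Subtype.val_injective
  have hEx : ∀ z : M, ExM (K := E) (k := 1) d z ↔ Ex E 1 d (g z) := by
    intro z
    rw [Ex_iff]
    have h1 : ∀ R : Polynomial (A E 1), Polynomial.aeval (g z) R = g (Polynomial.aeval z R) := by
      intro R
      exact Polynomial.aeval_algebraMap_apply (R := A E 1) (A := M) (Om E 1) z R
    constructor
    · rintro ⟨R, hR, hw, h⟩
      exact ⟨R, hR, hw, by rw [h1, h, map_zero]⟩
    · rintro ⟨R, hR, hw, h⟩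
      refine ⟨R, hR, hw, hg ?_⟩
      rw [← h1, h, map_zero]
  let y' : M := ⟨y, hyM (IntermediateField.mem_adjoin_simple_self _ y)⟩
  let ζ' : Fin r → M := fun j => ⟨ζ j, hyM (hζ j)⟩
  have hgE : ∀ e : E, g (algebraMap E M e) = algebraMap E (Om E 1) e := fun e => rfl
  have hgζ : ∀ j, g (ζ' j) = ζ j := fun j => rfl
  let H : Subgroup (M ≃ₐ[Q E 1] M) := MulAction.stabilizer (M ≃ₐ[Q E 1] M) y'
  have hH : ∀ σ : M ≃ₐ[Q E 1] M, σ ∈ H ↔ σ y' = y' := fun σ => MulAction.mem_stabilizer_iff
  obtain ⟨α, N, hN, hwd⟩ := exists_N d y' ((hEx y').2 hy) H hH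
  -- the `ζ'` are fixed by `H`
  have hfix : ∀ σ ∈ H, ∀ j, σ (ζ' j) = ζ' j := by
    intro σ hσ j
    have h1 : ζ' j ∈ IntermediateField.adjoin (Q E 1) {y'} := by
      have h2 : (IntermediateField.adjoin (Q E 1) {y'}).map M.val =
          IntermediateField.adjoin (Q E 1) {y} := by
        rw [IntermediateField.adjoin_map, Set.image_singleton]
        rfl
      have h3 : ζ j ∈ (IntermediateField.adjoin (Q E 1) {y'}).map M.val := by
        rw [h2]
        exact hζ j
      obtain ⟨w, hw, hwj⟩ := h3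
      have : w = ζ' j := hg hwj
      rw [← this]
      exact hw
    have h4 : IntermediateField.adjoin (Q E 1) {y'} ≤
        IntermediateField.fixedField (Subgroup.zpowers σ) := by
      rw [IntermediateField.adjoin_simple_le_iff]
      rintro ⟨τ, hτ⟩
      obtain ⟨k, rfl⟩ := Subgroup.mem_zpowers_iff.1 hτ
      have : σ ^ k ∈ H := H.zpow_mem hσ k
      exact (hH _).1 this
    have h5 := h4 h1
    exact h5 ⟨σ, Subgroup.mem_zpowers σ⟩
  -- the generic combination
  have hx' : ∀ σ : M ≃ₐ[Q E 1] M, ∑ j, algebraMap E M (m j) * σ (ζ' j) =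
      algebraMap (A E 1) M (X 0) := by
    intro σ
    have h1 : ∑ j, algebraMap E M (m j) * ζ' j = algebraMap (A E 1) M (X 0) := by
      apply hg
      rw [map_sum]
      exact hx
    have h2 := congrArg σ h1
    rw [map_sum, IsScalarTower.algebraMap_apply (A E 1) (Q E 1) M, σ.commutes] at h2
    rw [IsScalarTower.algebraMap_apply (A E 1) (Q E 1) M, ← h2]
    refine Finset.sum_congr rfl fun j _ => ?_
    rw [map_mul, IsScalarTower.algebraMap_apply E (Q E 1) M, σ.commutes]
  have hKM : ∀ (σ : M ≃ₐ[Q E 1] M) (i j : Fin r), ∃ R : MvPolynomial (Fin 2) K, R ≠ 0 ∧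
      eval₂ ((algebraMap E M).comp (algebraMap K E)) ![σ (ζ' i), σ (ζ' j)] R = 0 := by
    intro σ i j
    obtain ⟨R, hR, h⟩ := hK i j
    refine ⟨R, hR, ?_⟩
    have h1 : eval₂ ((algebraMap E M).comp (algebraMap K E)) ![ζ' i, ζ' j] R = 0 := by
      apply hg
      rw [map_zero, ← h, eval₂_comp_left]
      congr 1
      funext l
      fin_cases l <;> rfl
    have h2 := congrArg (σ : M →+* M) h1
    rw [map_zero, eval₂_comp_left] at h2
    rw [← h2]
    congr 1
    · refine RingHom.ext fun e => ?_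
      change algebraMap E M (algebraMap K E e) = σ (algebraMap E M (algebraMap K E e))
      rw [IsScalarTower.algebraMap_apply E (Q E 1) M, σ.commutes]
    · funext l
      fin_cases l <;> rfl
  -- the bound for one valuation
  have hbd : ∀ (Γ : Type) [LinearOrderedCommGroupWithZero Γ] (v : Valuation M Γ)
      (_ : ∀ e : E, e ≠ 0 → v (algebraMap E M e) = 1) (σ : M ≃ₐ[Q E 1] M),
      v (σ (∑ j, algebraMap E M (c j) * ζ' j)) ≤ max 1 (v (algebraMap (A E 1) M (X 0))) := by
    intro Γ _ v hv σ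
    rw [map_sum]
    refine v.map_sum_le fun j _ => ?_
    rw [map_mul, IsScalarTower.algebraMap_apply E (Q E 1) M, σ.commutes,
      ← IsScalarTower.algebraMap_apply E (Q E 1) M, map_mul]
    have h1 := res (algebraMap E M) v hv m hm (fun j => σ (ζ' j)) (hKM σ) j
    rw [hx' σ] at h1
    rcases eq_or_ne (c j) 0 with h2 | h2
    · rw [h2, map_zero, map_zero, zero_mul]
      exact zero_le
    · rw [hv _ h2, one_mul]
      exact h1
  have key := ExM_of_le hN (∑ j, algebraMap E M (c j) * ζ' j) (fun σ hσ => by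
      rw [map_sum]
      refine Finset.sum_congr rfl fun j _ => ?_
      rw [map_mul, hfix σ hσ j, IsScalarTower.algebraMap_apply E (Q E 1) M, σ.commutes])
    (fun σ hσ => (hH σ).1 hσ)
    (fun p hp => by
      obtain ⟨Γ, _, v, hv⟩ := exists_PV (M := M) p hp
      refine ⟨Γ, _, v, hv, fun σ => ?_⟩
      refine (hbd Γ v (fun e he => ?_) σ).trans (max_le (le_max_left _ _)
        ((hv.le_one _).trans (le_max_left _ _)))
      exact hv.const hp e he)
  obtain ⟨Γ, _, v, hv⟩ := exists_IV (K := E) (M := M) (0 : Fin 1)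
  have key2 := key 0 v hv (fun σ => by
    refine (hbd Γ v (fun e he => hv.const e he) σ).trans (max_le ?_ (le_max_left _ _))
    exact (le_of_lt hv.one_lt).trans (le_max_left _ _))
  obtain ⟨R, hR, hw, h⟩ := key2
  have h6 : ExM (K := E) (k := 1) d (∑ j, algebraMap E M (c j) * ζ' j) := ⟨R, hR, hw.trans hwd, h⟩
  have h7 := (hEx _).1 h6
  rw [map_sum] at h7
  exact h7

end Pool.Agent.QGen
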